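import Pool.Agent.V1153.FB.ArS

/-!
Points over fields which contain the complex numbers; morphisms from pointed varieties.
-/

set_option autoImplicit false

namespace Pool.Agent.V1153.FB

open MvPolynomial Pool.Agent.Y377.EL Pool.Agent.Y377.IL Pool.Agent.Y377.IR Pool.Agent.Y377.ST
open Pool.Agent.V1153.UG (sg GmBdd GmThin eval_aeval)
open Pool.Agent.V1153.IT

variable {n m : ℕ}

/-- `g(x) = b`, or all `g_u(x)` vanish, for points over a field `L` which contains the complex
numbers. -/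
def InFibreL (g : Fin (m + 1) → MvPolynomial (Fin (n + 1)) ℂ) {L : Type} [Field L] [Algebra ℂ L]
    (b : Fin (m + 1) → L) (x : Fin (n + 1) → L) : Prop :=
  ∀ u v, aeval x (g u) * b v = aeval x (g v) * b u

/-- `x` is a vector over `L` at which the forms of `I` vanish. -/
def OnXL (I : Ideal (MvPolynomial (Fin (n + 1)) ℂ)) {L : Type} [Field L] [Algebra ℂ L]
    (x : Fin (n + 1) → L) : Prop :=
  ∀ F ∈ I, (∃ d, F.IsHomogeneous d) → aeval x F = 0

/-- **One closed set and one bound for all fibres, over all fields of at most the cardinality of the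
continuum.** -/
theorem arith_L {δ : ℕ} {g : Fin (m + 1) → MvPolynomial (Fin (n + 1)) ℂ}
    (hg : ∀ u, (g u).IsHomogeneous δ) {I : Ideal (MvPolynomial (Fin (n + 1)) ℂ)} (hI : I.IsPrime)
    {Q : MvPolynomial (Fin (n + 1)) ℂ} {d0 : ℕ} (hQ : Q.IsHomogeneous d0) (hthin : FibThin I Q g)
    (s r e : ℕ) :
    ∃ (G : MvPolynomial (Fin (n + 1)) ℂ) (B : ℕ), (∃ a, G.IsHomogeneous a) ∧ G ∉ I ∧
      ∀ (L : Type) [Field L] [Algebra ℂ L], (L →+* ℂ) → ∀ b : Fin (m + 1) → L, b ≠ 0 →
      ∀ (H : Type) [Group H] (x : H → Fin (n + 1) → L),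
        (∀ h, OnXL I (x h)) → (∀ h, InFibreL g b (x h)) →
        IterOff s r e (map (algebraMap ℂ L) Q) x → (ptsOff G x).encard ≤ (B : ℕ∞) := by
  classical
  obtain ⟨G, B, hG, hGI, hall⟩ := arith_sigma hg hI hQ hthin s r e
  refine ⟨G, B, hG, hGI, fun L _ _ τ b hb H _ x hx hxb hit => ?_⟩
  have hpts : ptsOff G x = ptsOff (map (algebraMap ℂ L) G) x := by
    ext p
    unfold ptsOff
    simp only [Set.mem_setOf_eq, MvPolynomial.aeval_map_algebraMap]
  rw [hpts]
  by_contra hB
  obtain ⟨hs, hsG, hs0, hnp⟩ := exists_seqC hB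
  set σ : ℂ →+* ℂ := τ.comp (algebraMap ℂ L) with hσ
  have hev : ∀ (v : Fin (n + 1) → L) (F : MvPolynomial (Fin (n + 1)) ℂ),
      eval (fun j => τ (v j)) (map σ F) = τ (aeval v F) := by
    intro v F
    rw [eval_map, hσ, aeval_def]
    exact (eval₂_comp_left τ (algebraMap ℂ L) v F).symm
  refine hall σ H (fun h j => τ (x h j)) (fun h F hF hFh => ?_) ⟨fun u => τ (b u), fun h0 => ?_,
    fun h u v => ?_⟩ ⟨fun h => ?_, ?_⟩ ⟨hs, fun i => ?_, fun i h0 => hs0 i ?_,
      fun i j hi hj hij => ?_⟩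
  · rw [hev, hx h F hF hFh, map_zero]
  · apply hb
    funext u
    exact (map_eq_zero_iff τ τ.injective).1 (congrFun h0 u)
  · have h1 := congrArg τ (hxb h u v)
    rw [map_mul, map_mul] at h1
    change eval (fun j => τ (x h j)) (map σ (g u)) * τ (b v) =
      eval (fun j => τ (x h j)) (map σ (g v)) * τ (b u)
    rw [hev, hev]
    exact h1
  · change eval (fun j => τ (x h j)) (map σ Q) ≠ 0
    rw [hev, Ne, map_eq_zero_iff τ τ.injective]
    have h1 := hit.1 h
    rw [eval_map] at h1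
    exact h1
  · have h1 := hit.2.map τ
    have h2 : (fun h j => τ ((Fin.cons (eval (x h) (map (algebraMap ℂ L) Q))⁻¹ (x h) :
        Fin (n + 2) → L) j)) = fun h => (Fin.cons (eval (fun j => τ (x h j)) (map σ Q))⁻¹
          (fun j => τ (x h j)) : Fin (n + 2) → ℂ) := by
      funext h j
      refine Fin.cases ?_ (fun j => ?_) j
      · rw [Fin.cons_zero, Fin.cons_zero, map_inv₀, hev, eval_map]
        rfl
      · rw [Fin.cons_succ, Fin.cons_succ]
    rw [h2] at h1
    exact h1
  · change eval (fun j => τ (x (hs i) j)) (map σ G) ≠ 0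
    rw [hev, Ne, map_eq_zero_iff τ τ.injective]
    have h1 := hsG i
    rw [eval_map] at h1
    exact h1
  · funext j
    exact (map_eq_zero_iff τ τ.injective).1 (congrFun h0 j)
  · obtain ⟨u, v, huv⟩ := hnp i j hi hj hij
    refine ⟨u, v, fun h0 => huv (τ.injective ?_)⟩
    rw [map_mul, map_mul]
    exact h0

end Pool.Agent.V1153.FB
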