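import Pool.Agent.V1153.FB.Gen

/-!
Points given by iterated recurrences in the fibres of a rational map, over arbitrary fields.
-/

set_option autoImplicit false

namespace Pool.Agent.V1153.FB

open MvPolynomial Pool.Agent.Y377.EL Pool.Agent.Y377.IL Pool.Agent.Y377.IR Pool.Agent.Y377.ST
open Pool.Agent.V1153.UG (sg GmBdd GmThin eval_aeval)
open Pool.Agent.V1153.IT

variable {n : ℕ}

/-- the embedding of the complex numbers given by a sequence of embeddings -/
noncomputable def sgs (Θ : (ℕ → ℂ) →+* ℂ) (σ : ℕ → ℂ →+* ℂ) : ℂ →+* ℂ :=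
  Θ.comp (RingHom.pi σ)

theorem Th_sg (Θ : (ℕ → ℂ) →+* ℂ) (σ : ℕ → ℂ →+* ℂ) (F : MvPolynomial (Fin (n + 1)) ℂ)
    (y : ℕ → Fin (n + 1) → ℂ) :
    eval (fun j => Θ fun i => y i j) (map (sgs Θ σ) F) = Θ fun i => eval (y i) (map (σ i) F) := by
  have h1 : eval₂ (RingHom.pi σ) (fun j i => y i j) F =
      fun i => eval (y i) (map (σ i) F) := by
    funext i
    have h2 := eval₂_comp_left (Pi.evalRingHom (fun _ : ℕ => ℂ) i)
      (RingHom.pi σ) (fun j i => y i j) F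
    rw [eval_map]
    exact h2
  rw [← h1, eval_map]
  exact (eval₂_comp_left Θ (RingHom.pi σ) (fun j i => y i j) F).symm

/-- **One closed set and one bound for all fibres, over all fields.** -/
theorem arith_sigma {m δ : ℕ} {g : Fin (m + 1) → MvPolynomial (Fin (n + 1)) ℂ}
    (hg : ∀ u, (g u).IsHomogeneous δ) {I : Ideal (MvPolynomial (Fin (n + 1)) ℂ)} (hI : I.IsPrime)
    {Q : MvPolynomial (Fin (n + 1)) ℂ} {d0 : ℕ} (hQ : Q.IsHomogeneous d0) (hthin : FibThin I Q g)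
    (s r e : ℕ) :
    ∃ (G : MvPolynomial (Fin (n + 1)) ℂ) (B : ℕ), (∃ m, G.IsHomogeneous m) ∧ G ∉ I ∧
      ∀ (σ : ℂ →+* ℂ) (H : Type) [Group H] (x : H → Fin (n + 1) → ℂ),
        (∀ h, ∀ F ∈ I, (∃ m, F.IsHomogeneous m) → eval (x h) (map σ F) = 0) →
        (∃ b : Fin (m + 1) → ℂ, b ≠ 0 ∧ ∀ h, InFibre (fun u => map σ (g u)) b (x h)) →
        IterOff s r e (map σ Q) x →
        ¬ ∃ hs : ℕ → H, (∀ i, eval (x (hs i)) (map σ G) ≠ 0) ∧ (∀ i, x (hs i) ≠ 0) ∧
          ∀ i j, i ≤ B → j ≤ B → i ≠ j →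
            ∃ u v, x (hs i) u * x (hs j) v ≠ x (hs i) v * x (hs j) u := by
  classical
  by_contra hcon
  push Not at hcon
  choose GN hGN1 hGN2 hGN3 using hthin
  choose mN hmN using hGN1
  let Qi : ℕ → MvPolynomial (Fin (n + 1)) ℂ := fun i => ∏ N ∈ Finset.range (i + 1), GN N
  have hQi1 : ∀ i, ∃ m, (Qi i).IsHomogeneous m := fun i =>
    ⟨_, IsHomogeneous.prod _ _ mN fun j _ => hmN j⟩
  have hQi2 : ∀ i, Qi i ∉ I := by
    intro i h1
    obtain ⟨j, -, hj⟩ := (hI.prod_mem_iff).1 h1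
    exact hGN2 j hj
  choose σ Hs iH x hxF hxb hxQI hs hsG hs0 hnp using fun i => hcon (Qi i) i (hQi1 i) (hQi2 i)
  choose b hb0 hb using hxb
  have hxQ := fun i => (hxQI i).1
  have hx := fun i => (hxQI i).2
  obtain ⟨Θ, hΘ⟩ := Pool.Agent.Y455.ST.t_THETA
  let xs : (∀ i, Hs i) → Fin (n + 1) → ℂ := fun h j => Θ fun i => x i (h i) j
  let w : (∀ i, Hs i) → ℂ := fun h => Θ fun i => (eval (x i (h i)) (map (σ i) Q))⁻¹
  have hxs : IterVec s r e fun (h : ∀ i, Hs i) j => Θ fun i =>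
      (Fin.cons (eval (x i (h i)) (map (σ i) Q))⁻¹ (x i (h i)) : Fin (n + 2) → ℂ) j :=
    (IterVec.prod hx).map Θ
  obtain ⟨R, hR, hmem⟩ := hxs.tow
  have hwR : w ∈ R := by
    have h1 := hmem 0
    simp only [Fin.cons_zero] at h1
    exact h1
  have hxR : ∀ j, (fun h => xs h j) ∈ R := by
    intro j
    have h1 := hmem j.succ
    simp only [Fin.cons_succ] at h1
    exact h1
  have key : ∀ (F : MvPolynomial (Fin (n + 1)) ℂ) (h : ∀ i, Hs i),
      eval (xs h) (map (sgs Θ σ) F) = Θ fun i => eval (x i (h i)) (map (σ i) F) := fun F h =>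
    Th_sg Θ σ F fun i => x i (h i)
  have kF : ∀ F ∈ I, (∃ m, F.IsHomogeneous m) → ∀ h : ∀ i, Hs i,
      eval (xs h) (map (sgs Θ σ) F) = 0 := by
    intro F hF hFh h
    rw [key]
    have h2 : (fun i => eval (x i (h i)) (map (σ i) F)) = fun _ => 0 := by
      funext i
      rw [hxF i (h i) F hF hFh]
    rw [h2]
    exact map_zero Θ
  let bs : Fin (m + 1) → ℂ := fun u => Θ fun i => b i u
  obtain ⟨u0, hu0⟩ : ∃ u, bs u ≠ 0 := theta_ne hΘ (fun u i => b i u) 0 fun i _ =>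
    Function.ne_iff.1 (hb0 i)
  have kB : ∀ (u v : Fin (m + 1)) (h : ∀ i, Hs i),
      eval (xs h) (C (bs v) * map (sgs Θ σ) (g u) - C (bs u) * map (sgs Θ σ) (g v)) = 0 := by
    intro u v h
    rw [map_sub, map_mul, map_mul, eval_C, eval_C, key, key, ← map_mul, ← map_mul, ← map_sub]
    have h2 : ((fun i => b i v) * fun i => eval (x i (h i)) (map (σ i) (g u))) -
        ((fun i => b i u) * fun i => eval (x i (h i)) (map (σ i) (g v))) = fun _ => 0 := by
      funext i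
      have h3 := hb i (h i) u v
      simp only [Pi.sub_apply, Pi.mul_apply]
      linear_combination h3
    rw [h2]
    exact map_zero Θ
  have kQ : ∀ h : ∀ i, Hs i, w h * eval (xs h) (map (sgs Θ σ) Q) = 1 := by
    intro h
    rw [key, ← map_mul, ← map_one Θ]
    congr 1
    funext i
    exact inv_mul_cancel₀ (hxQ i (h i))
  let a : ℕ → ∀ i, Hs i := fun m i => hs i m
  have hGa : ∀ N m, eval (xs (a m)) (map (sgs Θ σ) (GN N)) ≠ 0 := by
    intro N m
    rw [key]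
    have h6 : ∀ i, N ≤ i → eval (x i (a m i)) (map (σ i) (GN N)) ≠ 0 := by
      intro i hi h5
      have h4 : GN N ∣ Qi i := Finset.dvd_prod_of_mem GN (Finset.mem_range.2 (by omega))
      obtain ⟨G', hG'⟩ := h4
      apply hsG i m
      rw [hG', map_mul, map_mul]
      change eval (x i (a m i)) (map (σ i) (GN N)) * _ = 0
      rw [h5, zero_mul]
    obtain ⟨-, h1⟩ := theta_ne hΘ (fun _ : Unit => fun i => eval (x i (a m i)) (map (σ i) (GN N))) N
      (fun i hi => ⟨(), h6 i hi⟩)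
    exact h1
  have hxne : ∀ m, ∃ l, xs (a m) l ≠ 0 := fun m =>
    theta_ne hΘ (fun l i => x i (a m i) l) 0 fun i _ => Function.ne_iff.1 (hs0 i m)
  have hcross : ∀ m m', m ≠ m' → ∃ u v, xs (a m) u * xs (a m') v ≠ xs (a m) v * xs (a m') u := by
    intro m m' hmm
    obtain ⟨⟨u, v⟩, h1⟩ := theta_ne hΘ (fun (p : Fin (n + 1) × Fin (n + 1)) i =>
      x i (a m i) p.1 * x i (a m' i) p.2 - x i (a m i) p.2 * x i (a m' i) p.1) (max m m')
      (fun i hi => by
        obtain ⟨u, v, h1⟩ := hnp i m m' ((le_max_left _ _).trans hi)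
          ((le_max_right _ _).trans hi) hmm
        exact ⟨(u, v), sub_ne_zero.2 h1⟩)
    refine ⟨u, v, fun h2 => h1 ?_⟩
    have h3 : (fun i => x i (a m i) u * x i (a m' i) v - x i (a m i) v * x i (a m' i) u) =
        (fun i => x i (a m i) u) * (fun i => x i (a m' i) v) -
          (fun i => x i (a m i) v) * (fun i => x i (a m' i) u) := rfl
    change Θ (fun i => x i (a m i) u * x i (a m' i) v - x i (a m i) v * x i (a m' i) u) = 0
    rw [h3, map_sub, map_mul, map_mul]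
    exact sub_eq_zero.2 h2
  obtain ⟨Nn, hn, hfi, hres⟩ := exists_res fhyp hR
  have hq : Finite ((∀ i, Hs i) ⧸ Nn) := inferInstance
  obtain ⟨m1, m2, hmm, hmk⟩ := Finite.exists_ne_map_eq_of_infinite
    fun m : ℕ => (QuotientGroup.mk (a m) : (∀ i, Hs i) ⧸ Nn)
  have hco : a m2 * (a m1)⁻¹ ∈ Nn := hn.mem_comm (QuotientGroup.eq.1 hmk)
  obtain ⟨l, hl⟩ := hxne m1
  obtain ⟨u, v, huv⟩ := hcross m1 m2 hmm
  obtain ⟨K, i1, i2, Γ, ρ, hρ⟩ := hres (a m1)
  obtain ⟨M, j1, j2, P, hP1, hP2, hP3⟩ := coset_fam hxR (hQ.map (sgs Θ σ)) hwR kQ hρ hl hco huv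
  have htw : ∀ G : MvPolynomial (Fin (n + 1)) ℂ,
      eval₂ (Polynomial.C.comp ((algebraMap ℂ M).comp (sgs Θ σ))) P G =
        aeval P (map (sgs Θ σ) G) := by
    intro G
    rw [aeval_def, eval₂_map]
    rfl
  let N0 : ℕ := Finset.univ.sup fun j => (P j).natDegree
  obtain ⟨p, hp1, hp2, hp3, hp4, hp5, hp6⟩ := special_rel' (Q := Q) (G' := GN N0)
    (S := {G | G ∈ I ∧ ∃ m, G.IsHomogeneous m}) g ((algebraMap ℂ M).comp (sgs Θ σ)) (P := P)
    (by
      rintro G ⟨hG, m, hm⟩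
      rw [htw, hP1 _ ⟨m, hm.map _⟩]
      exact fun g _ => kF G hG ⟨m, hm⟩ _)
    (by
      have h1 : ∀ u v, Polynomial.C (algebraMap ℂ M (bs v)) * aeval P (map (sgs Θ σ) (g u)) =
          Polynomial.C (algebraMap ℂ M (bs u)) * aeval P (map (sgs Θ σ) (g v)) := by
        intro u v
        have h2 := (hP1 (C (bs v) * map (sgs Θ σ) (g u) - C (bs u) * map (sgs Θ σ) (g v)) ⟨δ, by
          refine IsHomogeneous.sub ?_ ?_
          · have h3 := (isHomogeneous_C (Fin (n + 1)) (bs v)).mul ((hg u).map (sgs Θ σ))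
            rwa [zero_add] at h3
          · have h3 := (isHomogeneous_C (Fin (n + 1)) (bs u)).mul ((hg v).map (sgs Θ σ))
            rwa [zero_add] at h3⟩).2 (fun g' _ => kB u v _)
        rw [map_sub, map_mul, map_mul, aeval_C, aeval_C] at h2
        exact sub_eq_zero.1 h2
      intro u v
      rw [htw, htw]
      exact wr_of_par (by rwa [Ne, map_eq_zero_iff _ (algebraMap ℂ M).injective]) h1 u v)
    (by
      rw [htw]
      exact hP2) hP3
    (by
      rw [htw, Ne, hP1 _ ⟨_, (hmN N0).map _⟩]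
      intro h1
      have h2 := h1 1 Nn.one_mem
      rw [one_mul] at h2
      exact hGa N0 m1 h2)
  apply hp5
  apply Polynomial.funext
  intro t
  rw [eval_aeval, Polynomial.eval_zero]
  refine hGN3 N0 p ⟨fun j => (hp1 j).trans (Finset.le_sup (f := fun j => (P j).natDegree)
    (Finset.mem_univ j)), fun G hG hm => hp2 G ⟨hG, hm⟩, hp3, UG.nc_of_wr hp4⟩ hp6 t

end Pool.Agent.V1153.FB
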