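import Pool.Agent.V1153.FB.Conv

/-!
Arithmetic of the fibres of a rational map: the equivalences.
-/

set_option autoImplicit false

namespace Pool.Agent.V1153.FB

open MvPolynomial Pool.Agent.Y377.IL
open Pool.Agent.Y377.ST (IterVec ptsOff)
open Pool.Agent.V1153.UG (GmBdd GmThin eval_aeval)
open Pool.Agent.V1153.IT

variable {n m : ℕ}

/-- `v` is a vector on which the forms of `I` vanish. -/
def OnX (I : Ideal (MvPolynomial (Fin (n + 1)) ℂ)) (v : Fin (n + 1) → ℂ) : Prop :=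
  ∀ F ∈ I, (∃ d, F.IsHomogeneous d) → eval v F = 0

/-- For every type `(s, r, e)` there are one proper closed subset of `X` and one number `B` such that
in every fibre of `g` every family given by iterated recurrences of type `(s, r, e)` has at most
`B` points outside of this closed subset. -/
def FibUniform (I : Ideal (MvPolynomial (Fin (n + 1)) ℂ)) (Q : MvPolynomial (Fin (n + 1)) ℂ)
    (g : Fin (m + 1) → MvPolynomial (Fin (n + 1)) ℂ) : Prop :=
  ∀ s r e : ℕ, ∃ (G : MvPolynomial (Fin (n + 1)) ℂ) (B : ℕ), (∃ d, G.IsHomogeneous d) ∧ G ∉ I ∧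
    ∀ b : Fin (m + 1) → ℂ, b ≠ 0 → ∀ (H : Type) [Group H] (x : H → Fin (n + 1) → ℂ),
      (∀ h, OnX I (x h)) → (∀ h, InFibre g b (x h)) → IterOff s r e Q x →
        (ptsOff G x).encard ≤ (B : ℕ∞)

/-- For every `e` there is one proper closed subset of `X` outside of which, in every fibre of `g` and
over every finitely generated ring, the sequences of integral points indexed by `ℤ` whose coordinates
are polynomials of degree at most `e` in `u ^ h` and `u ^ (-h)` (see `IterOff 1 1 e`) have only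
finitely many points. -/
def FibPowers (I : Ideal (MvPolynomial (Fin (n + 1)) ℂ)) (Q : MvPolynomial (Fin (n + 1)) ℂ)
    (g : Fin (m + 1) → MvPolynomial (Fin (n + 1)) ℂ) : Prop :=
  ∀ e : ℕ, ∃ G : MvPolynomial (Fin (n + 1)) ℂ, (∃ d, G.IsHomogeneous d) ∧ G ∉ I ∧
    ∀ b : Fin (m + 1) → ℂ, b ≠ 0 → ∀ (T : Finset ℂ) (x : Multiplicative ℤ → Fin (n + 1) → ℂ),
      (∀ h j, x h j ∈ Algebra.adjoin ℤ (T : Set ℂ)) →
      (∀ h, (eval (x h) Q)⁻¹ ∈ Algebra.adjoin ℤ (T : Set ℂ)) →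
      (∀ h, OnX I (x h)) → (∀ h, InFibre g b (x h)) → IterOff 1 1 e Q x → (ptsOff G x).Finite

/-- The strong conjecture for the fibres of `g` with one closed subset for all of them: there is a
proper closed subset of `X` outside of which every fibre has only finitely many integral points over
each finitely generated ring. -/
def FibLang (I : Ideal (MvPolynomial (Fin (n + 1)) ℂ)) (Q : MvPolynomial (Fin (n + 1)) ℂ)
    (g : Fin (m + 1) → MvPolynomial (Fin (n + 1)) ℂ) : Prop :=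
  ∃ G : MvPolynomial (Fin (n + 1)) ℂ, (∃ d, G.IsHomogeneous d) ∧ G ∉ I ∧
    ∀ b : Fin (m + 1) → ℂ, b ≠ 0 → ∀ T : Finset ℂ,
      {p : Projectivization ℂ (Fin (n + 1) → ℂ) | ∃ (v : Fin (n + 1) → ℂ) (h0 : v ≠ 0),
        (∀ j, v j ∈ Algebra.adjoin ℤ (T : Set ℂ)) ∧ OnX I v ∧ InFibre g b v ∧ eval v Q ≠ 0 ∧
        (eval v Q)⁻¹ ∈ Algebra.adjoin ℤ (T : Set ℂ) ∧ eval v G ≠ 0 ∧
        p = Projectivization.mk ℂ v h0}.Finite

theorem FibLang.powers {I : Ideal (MvPolynomial (Fin (n + 1)) ℂ)}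
    {Q : MvPolynomial (Fin (n + 1)) ℂ} {g : Fin (m + 1) → MvPolynomial (Fin (n + 1)) ℂ}
    (h : FibLang I Q g) : FibPowers I Q g := by
  obtain ⟨G, hG, hGI, hall⟩ := h
  refine fun e => ⟨G, hG, hGI, fun b hb T x hxT hxQ hx hxb hit => (hall b hb T).subset ?_⟩
  rintro p ⟨h, h0, h1, rfl⟩
  refine ⟨x h, h0, hxT h, hx h, hxb h, hit.1 h, hxQ h, ?_, rfl⟩
  rw [← MvPolynomial.coe_aeval_eq_eval]
  exact h1

theorem FibUniform.powers {I : Ideal (MvPolynomial (Fin (n + 1)) ℂ)}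
    {Q : MvPolynomial (Fin (n + 1)) ℂ} {g : Fin (m + 1) → MvPolynomial (Fin (n + 1)) ℂ}
    (h : FibUniform I Q g) : FibPowers I Q g := by
  intro e
  obtain ⟨G, B, hG, hGI, hall⟩ := h 1 1 e
  exact ⟨G, hG, hGI, fun b hb T x _ _ hx hxb hit =>
    Set.finite_of_encard_le_coe (hall b hb _ x hx hxb hit)⟩

theorem FibPowers.thin {I : Ideal (MvPolynomial (Fin (n + 1)) ℂ)}
    {Q : MvPolynomial (Fin (n + 1)) ℂ} {q : ℕ} (hQ : Q.IsHomogeneous q)
    {g : Fin (m + 1) → MvPolynomial (Fin (n + 1)) ℂ}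
    (h : FibPowers I Q g) : FibThin I Q g := by
  classical
  intro N
  obtain ⟨G, hG, hGI, hall⟩ := h (q * N + N)
  refine ⟨G, hG, hGI, fun P hP hPg t => ?_⟩
  by_contra ht
  obtain ⟨b, hb, hbt⟩ := hPg.fibre
  obtain ⟨c, κ, hc, hκ⟩ := hP.off
  set T : Finset ℂ := insert (1 / 2 : ℂ) (insert c⁻¹
    (Finset.univ.biUnion fun j => (Finset.range (N + 1)).image fun i => (P j).coeff i)) with hT
  have hmem : ∀ j i, i < N + 1 → (P j).coeff i ∈ Algebra.adjoin ℤ (T : Set ℂ) := by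
    intro j i hi
    apply Algebra.subset_adjoin
    rw [hT, Finset.mem_coe, Finset.mem_insert, Finset.mem_insert, Finset.mem_biUnion]
    exact Or.inr (Or.inr ⟨j, Finset.mem_univ _, Finset.mem_image_of_mem _ (Finset.mem_range.2 hi)⟩)
  have hhalf : (1 / 2 : ℂ) ∈ Algebra.adjoin ℤ (T : Set ℂ) := by
    apply Algebra.subset_adjoin
    rw [hT, Finset.mem_coe]
    exact Finset.mem_insert_self _ _
  have hcinv : c⁻¹ ∈ Algebra.adjoin ℤ (T : Set ℂ) := by
    apply Algebra.subset_adjoin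
    rw [hT, Finset.mem_coe]
    exact Finset.mem_insert_of_mem (Finset.mem_insert_self _ _)
  have htwo : (2 : ℂ) ∈ Algebra.adjoin ℤ (T : Set ℂ) := ofNat_mem _ 2
  have htw : ∀ a : ℤ, (2 : ℂ) ^ a ∈ Algebra.adjoin ℤ (T : Set ℂ) := by
    intro a
    rcases Int.eq_nat_or_neg a with ⟨b, rfl | rfl⟩
    · rw [zpow_natCast]
      exact pow_mem htwo b
    · rw [zpow_neg, zpow_natCast, ← inv_pow, ← one_div]
      exact pow_mem hhalf b
  refine curve_infinite hP ht (hall b hb T _ (fun h j => ?_) (fun h => ?_) (fun h F hF hFh => ?_)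
    (fun h => hbt _) (iter_curve (D := q) le_rfl hQ hP))
  · rw [Polynomial.eval_eq_sum_range' (n := N + 1) (by have := hP.deg j; omega)]
    exact sum_mem fun i hi => mul_mem (hmem j i (Finset.mem_range.1 hi)) (pow_mem (htw _) _)
  · rw [← UG.eval_aeval, hκ, Polynomial.eval_mul, Polynomial.eval_C, Polynomial.eval_pow,
      Polynomial.eval_X, mul_inv]
    refine mul_mem hcinv ?_
    unfold tw
    rw [← inv_pow, ← zpow_neg]
    exact pow_mem (htw _) _
  · rw [← UG.eval_aeval, hP.mem F hF hFh, Polynomial.eval_zero]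

/-- **Uniformity in the fibres.** -/
theorem fib_arith {I : Ideal (MvPolynomial (Fin (n + 1)) ℂ)} (hI : I.IsPrime)
    {Q : MvPolynomial (Fin (n + 1)) ℂ} {q : ℕ} (hQ : Q.IsHomogeneous q) {δ : ℕ}
    {g : Fin (m + 1) → MvPolynomial (Fin (n + 1)) ℂ} (hg : ∀ u, (g u).IsHomogeneous δ) :
    List.TFAE [¬ FibRuled I Q g, FibUniform I Q g, FibPowers I Q g] ∧
      (FibLang I Q g → ¬ FibRuled I Q g) := by
  have h1 : ¬ FibRuled I Q g → FibUniform I Q g := by
    intro h s r e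
    obtain ⟨G, B, hG, hGI, hall⟩ := arith_rel hg hI hQ (thin_rel g hI hQ h) s r e
    exact ⟨G, B, hG, hGI, fun b hb H _ x hx hxb hit => hall H x hx ⟨b, hb, hxb⟩ hit⟩
  refine ⟨?_, fun h => not_fibRuled_of_thin (h.powers.thin hQ)⟩
  tfae_have 1 → 2 := h1
  tfae_have 2 → 3 := FibUniform.powers
  tfae_have 3 → 1 := fun h => not_fibRuled_of_thin (h.thin hQ)
  tfae_finish

end Pool.Agent.V1153.FB
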