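import Pool.Agent.V1153.FB.Ar
import Pool.Agent.V1153.IT.ArC

/-!
Converse theorems for the fibres of a rational map.
-/

set_option autoImplicit false

namespace Pool.Agent.V1153.FB

open MvPolynomial Pool.Agent.Y377.IL
open Pool.Agent.Y377.ST (IterVec ptsOff)
open Pool.Agent.V1153.UG (GmBdd GmThin eval_aeval)
open Pool.Agent.V1153.IT

variable {n m : ℕ}

/-- a curve on which `g` is constant is contained in a fibre -/
theorem ConstOn.fibre {g : Fin (m + 1) → MvPolynomial (Fin (n + 1)) ℂ}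
    {P : Fin (n + 1) → Polynomial ℂ} (h : ConstOn g P) :
    ∃ b : Fin (m + 1) → ℂ, b ≠ 0 ∧ ∀ t, InFibre g b fun j => (P j).eval t := by
  by_cases h0 : ∃ u, (aeval P (g u) : Polynomial ℂ) ≠ 0
  · obtain ⟨u0, hu0⟩ := h0
    choose b hb using fun u => prop_of_wronskian hu0 (h u u0)
    refine ⟨b, fun hb0 => ?_, fun t u v => ?_⟩
    · apply hu0
      rw [hb u0, hb0, Pi.zero_apply, Polynomial.C_0, zero_mul]
    · rw [← eval_aeval, ← eval_aeval, hb u, hb v, Polynomial.eval_mul, Polynomial.eval_mul,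
        Polynomial.eval_C, Polynomial.eval_C]
      ring
  · push Not at h0
    refine ⟨fun _ => 1, fun h1 => one_ne_zero (congrFun h1 0), fun t u v => ?_⟩
    rw [← eval_aeval, ← eval_aeval, h0 u, h0 v]

/-- a curve in a fibre -/
theorem constOn_of_fibre {g : Fin (m + 1) → MvPolynomial (Fin (n + 1)) ℂ}
    {P : Fin (n + 1) → Polynomial ℂ} {b : Fin (m + 1) → ℂ} (hb : b ≠ 0)
    (h : ∀ t, InFibre g b fun j => (P j).eval t) : ConstOn g P := by
  obtain ⟨u0, hu0⟩ := Function.ne_iff.1 hb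
  intro u v
  refine wr_of_par (b := b) (A := fun u => aeval P (g u)) hu0 (fun u v => ?_) u v
  apply Polynomial.funext
  intro t
  rw [Polynomial.eval_mul, Polynomial.eval_mul, Polynomial.eval_C, Polynomial.eval_C, eval_aeval,
    eval_aeval]
  have h1 := h t u v
  linear_combination h1

/-- a variety covered by curves in the fibres is covered by such curves of bounded degree -/
theorem not_fibRuled_of_thin {I : Ideal (MvPolynomial (Fin (n + 1)) ℂ)}
    {Q : MvPolynomial (Fin (n + 1)) ℂ} {g : Fin (m + 1) → MvPolynomial (Fin (n + 1)) ℂ}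
    (h : FibThin I Q g) : ¬ FibRuled I Q g := by
  classical
  rintro ⟨L, _, _, P, hP, hQ, hdom, hn, hc⟩
  obtain ⟨G, hGh, hG, hall⟩ := h (Finset.univ.sup fun j => (P j).natDegree)
  obtain ⟨p, hpd, hpS, hpQ, hpn, hpG, hpc⟩ := special_rel
    (S := {F | F ∈ I ∧ ∃ m, F.IsHomogeneous m}) g
    (fun F hF => hP F hF.1 hF.2) hc hQ hn (hdom G hGh hG)
  apply hpG
  apply Polynomial.funext
  intro t
  rw [eval_aeval, Polynomial.eval_zero]
  exact hall p ⟨fun j => (hpd j).trans (Finset.le_sup (f := fun j => (P j).natDegree)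
    (Finset.mem_univ j)), fun F hF hFh => hpS F ⟨hF, hFh⟩, hpQ, UG.nc_of_wr hpn⟩ hpc t

theorem fibThin_of_arith {I : Ideal (MvPolynomial (Fin (n + 1)) ℂ)}
    {Q : MvPolynomial (Fin (n + 1)) ℂ} {q : ℕ} (hQ : Q.IsHomogeneous q)
    {g : Fin (m + 1) → MvPolynomial (Fin (n + 1)) ℂ}
    (h : ∀ e : ℕ, ∃ G : MvPolynomial (Fin (n + 1)) ℂ, (∃ a, G.IsHomogeneous a) ∧ G ∉ I ∧
      ∀ (b : Fin (m + 1) → ℂ) (x : Multiplicative ℤ → Fin (n + 1) → ℂ), b ≠ 0 →
        (∀ h, ∀ F ∈ I, (∃ a, F.IsHomogeneous a) → eval (x h) F = 0) →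
        (∀ h, InFibre g b (x h)) → IterOff 1 1 e Q x → (ptsOff G x).Finite) : FibThin I Q g := by
  intro N
  obtain ⟨G, hG, hGI, hall⟩ := h (q * N + N)
  refine ⟨G, hG, hGI, fun P hP hPg t => ?_⟩
  by_contra ht
  obtain ⟨b, hb, hbt⟩ := hPg.fibre
  refine curve_infinite hP ht (hall b _ hb (fun h F hF hFh => ?_) (fun h => hbt _)
    (iter_curve le_rfl hQ hP))
  rw [← eval_aeval, hP.mem F hF hFh, Polynomial.eval_zero]

end Pool.Agent.V1153.FB
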