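import Pool.Agent.V1153.FB.Opn
import Pool.Agent.V1153.UG.Spc

/-!
Criteria for the fibres of a rational map not to be covered by curves of the punctured line.
-/

set_option autoImplicit false

namespace Pool.Agent.V1153.FB

open MvPolynomial Pool.Agent.Y377.IL
open Pool.Agent.V1153.UG (GmBdd GmThin eval_aeval)
open Pool.Agent.TH143.GT (FunField)
open Pool.Agent.W602.GT (LogGeneralType)
open Pool.Agent.W603.GR (OffQ)

variable {n m : ℕ}

theorem pt_off {J : Ideal (MvPolynomial (Fin (n + 1)) ℂ)} (hJ : J.IsPrime)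
    {G : MvPolynomial (Fin (n + 1)) ℂ} (hG : G ∉ J) :
    ∃ x : Fin (n + 1) → ℂ, OnX J x ∧ eval x G ≠ 0 := by
  have h2 : G ∉ vanishingIdeal ℂ (zeroLocus ℂ J) := by
    rw [vanishingIdeal_zeroLocus_eq_radical, hJ.isRadical.radical]
    exact hG
  rw [mem_vanishingIdeal_iff] at h2
  push Not at h2
  obtain ⟨x, hx, hxG⟩ := h2
  refine ⟨x, fun F hF _ => ?_, ?_⟩
  · rw [← aeval_eq]
    exact (mem_zeroLocus_iff.1 hx) F hF
  · rw [← aeval_eq]
    exact hxG

/-- The points of `X` through which no curve of degree at most `N` of the fibre of `g` passes are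
dense, for every `N`. -/
def FibFree (I : Ideal (MvPolynomial (Fin (n + 1)) ℂ)) (Q : MvPolynomial (Fin (n + 1)) ℂ)
    (g : Fin (m + 1) → MvPolynomial (Fin (n + 1)) ℂ) : Prop :=
  ∀ (N : ℕ) (G : MvPolynomial (Fin (n + 1)) ℂ), (∃ d, G.IsHomogeneous d) → G ∉ I →
    ∃ x : Fin (n + 1) → ℂ, OnX I x ∧ eval x G ≠ 0 ∧ ∀ (b : Fin (m + 1) → ℂ) P, b ≠ 0 →
      GmBdd I Q N P → (∀ t, InFibre g b fun j => (P j).eval t) →
        ∀ c t : ℂ, t ≠ 0 → (fun j => c * (P j).eval t) ≠ x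

theorem fibFree_iff {I : Ideal (MvPolynomial (Fin (n + 1)) ℂ)} (hI : I.IsPrime)
    {Q : MvPolynomial (Fin (n + 1)) ℂ} {q : ℕ} (hQ : Q.IsHomogeneous q)
    {g : Fin (m + 1) → MvPolynomial (Fin (n + 1)) ℂ} : FibFree I Q g ↔ ¬ FibRuled I Q g := by
  constructor
  · intro h hr
    obtain ⟨N, G, hG, hGI, hall⟩ := hr.open
    obtain ⟨x, hx, hxG, hno⟩ := h N G hG hGI
    obtain ⟨P, hP, hc, c, t, -, ht, hxP⟩ := hall x hx hxG
    obtain ⟨b, hb, hbt⟩ := hc.fibre
    exact hno b P hb hP hbt c t ht (funext fun j => (hxP j).symm)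
  · intro h N G hG hGI
    obtain ⟨G', ⟨a, ha⟩, hGI', hall⟩ := thin_rel g hI hQ h N
    obtain ⟨x, hx, hxG⟩ := pt_off hI (G := G * G') fun h0 => (hI.mem_or_mem h0).elim hGI hGI'
    rw [map_mul] at hxG
    refine ⟨x, hx, left_ne_zero_of_mul hxG, fun b P hb hP hbt c t ht h0 => ?_⟩
    apply right_ne_zero_of_mul hxG
    rw [← h0, UG.eval_homog ha, hall P hP (constOn_of_fibre hb hbt) t, mul_zero]

/-- The integral closed subvariety with the ideal `J` is an irreducible component of the fibre of `g`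
over `b`. -/
structure FibComp (I : Ideal (MvPolynomial (Fin (n + 1)) ℂ))
    (g : Fin (m + 1) → MvPolynomial (Fin (n + 1)) ℂ) (b : Fin (m + 1) → ℂ)
    (J : Ideal (MvPolynomial (Fin (n + 1)) ℂ)) : Prop where
  prime : J.IsPrime
  le : I ≤ J
  fib : ∀ x, OnX J x → InFibre g b x
  comp : ∃ G : MvPolynomial (Fin (n + 1)) ℂ, (∃ d, G.IsHomogeneous d) ∧ G ∉ J ∧
    ∀ x, OnX I x → InFibre g b x → eval x G ≠ 0 → OnX J x

/-- The irreducible components of log general type of the fibres of `g` are dense in `X`. -/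
def FibGeneral (I : Ideal (MvPolynomial (Fin (n + 1)) ℂ)) (Q : MvPolynomial (Fin (n + 1)) ℂ) (q : ℕ)
    (g : Fin (m + 1) → MvPolynomial (Fin (n + 1)) ℂ) : Prop :=
  ∀ G : MvPolynomial (Fin (n + 1)) ℂ, (∃ d, G.IsHomogeneous d) → G ∉ I →
    ∃ (b : Fin (m + 1) → ℂ) (J : Ideal (MvPolynomial (Fin (n + 1)) ℂ)), b ≠ 0 ∧
      FibComp I g b J ∧ Q ∉ J ∧ G ∉ J ∧
      ∃ (K : Type) (_ : Field K) (_ : Algebra ℂ K) (w : ℕ) (y : Fin (n + 1) → K),
        FunField J Q K w y ∧ LogGeneralType ℂ K w (OffQ Q q y)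

/-- a curve through a point of a fibre is contained in the fibre -/
theorem fibre_eq {g : Fin (m + 1) → MvPolynomial (Fin (n + 1)) ℂ} {b b' : Fin (m + 1) → ℂ}
    {x : Fin (n + 1) → ℂ} {u : Fin (m + 1)} (hu : eval x (g u) ≠ 0) (hb : InFibre g b x)
    (hb0 : b ≠ 0) (hb' : InFibre g b' x) (hb0' : b' ≠ 0) {y : Fin (n + 1) → ℂ}
    (hy : InFibre g b' y) : InFibre g b y := by
  have hne : ∀ c : Fin (m + 1) → ℂ, c ≠ 0 → InFibre g c x → c u ≠ 0 := by
    intro c hc hcx h0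
    apply hc
    funext v
    have h1 := hcx u v
    rw [h0, mul_zero] at h1
    exact (mul_eq_zero.1 h1).resolve_left hu
  have hbu := hne b hb0 hb
  have hbu' := hne b' hb0' hb'
  have h1 : ∀ v, b' v = b' u / b u * b v := by
    intro v
    have h2 := hb u v
    have h3 := hb' u v
    rw [div_mul_eq_mul_div, eq_div_iff hbu]
    apply mul_left_cancel₀ hu
    linear_combination b u * h3 - b' u * h2
  intro v w
  have h2 := hy v w
  rw [h1 v, h1 w] at h2
  have h3 : b' u / b u ≠ 0 := div_ne_zero hbu' hbu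
  apply mul_left_cancel₀ h3
  linear_combination h2

theorem fibre_sep {I : Ideal (MvPolynomial (Fin (n + 1)) ℂ)} (hI : I.IsPrime) {δ : ℕ}
    {g : Fin (m + 1) → MvPolynomial (Fin (n + 1)) ℂ} (hg : ∀ u, (g u).IsHomogeneous δ) :
    ∃ G1 : MvPolynomial (Fin (n + 1)) ℂ, (∃ d, G1.IsHomogeneous d) ∧ G1 ∉ I ∧
      ∀ (b b' : Fin (m + 1) → ℂ) (x y : Fin (n + 1) → ℂ), b ≠ 0 → b' ≠ 0 → eval x G1 ≠ 0 →
        InFibre g b x → InFibre g b' x → OnX I y → InFibre g b' y → InFibre g b y := by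
  by_cases hu : ∃ u, g u ∉ I
  · obtain ⟨u, hu⟩ := hu
    exact ⟨g u, ⟨δ, hg u⟩, hu, fun b b' x y hb hb' hx h1 h2 _ h3 =>
      fibre_eq hx h1 hb h2 hb' h3⟩
  · push Not at hu
    refine ⟨1, ⟨0, isHomogeneous_one _ _⟩, fun h => hI.ne_top ((Ideal.eq_top_iff_one _).2 h),
      fun b b' x y _ _ _ _ _ hy _ v w => ?_⟩
    rw [hy _ (hu v) ⟨δ, hg v⟩, hy _ (hu w) ⟨δ, hg w⟩, zero_mul, zero_mul]

/-- **Fibres of log general type.** -/
theorem FibGeneral.not_ruled {I : Ideal (MvPolynomial (Fin (n + 1)) ℂ)} (hI : I.IsPrime)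
    {Q : MvPolynomial (Fin (n + 1)) ℂ} {q : ℕ} (hQ : Q.IsHomogeneous q) {δ : ℕ}
    {g : Fin (m + 1) → MvPolynomial (Fin (n + 1)) ℂ} (hg : ∀ u, (g u).IsHomogeneous δ)
    (h : FibGeneral I Q q g) : ¬ FibRuled I Q g := by
  intro hr
  obtain ⟨N, G, ⟨a, hG⟩, hGI, hall⟩ := hr.open
  obtain ⟨G1, ⟨a1, hG1⟩, hG1I, hsep⟩ := fibre_sep hI hg
  obtain ⟨b, J, hb, hC, hQJ, hGJ, K, _, _, w, y, hy, hL⟩ := h (G * G1) ⟨_, hG.mul hG1⟩
    fun h0 => (hI.mem_or_mem h0).elim hGI hG1I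
  obtain ⟨G2, ⟨a2, hG2⟩, hG2J, hall2⟩ := UG.thin_of_not_ruled hC.prime hQ
    (UG.not_ruled_of_lgt hQ hy hL) N
  obtain ⟨G3, ⟨a3, hG3⟩, hG3J, hall3⟩ := hC.comp
  obtain ⟨x, hx, hxG⟩ := pt_off hC.prime (G := G * G1 * G2 * G3) fun h0 => by
    rcases hC.prime.mem_or_mem h0 with h1 | h1
    · rcases hC.prime.mem_or_mem h1 with h2 | h2
      · exact hGJ h2
      · exact hG2J h2
    · exact hG3J h1
  rw [map_mul, map_mul, map_mul] at hxG
  have hxG3 := right_ne_zero_of_mul hxG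
  have hxG2 := right_ne_zero_of_mul (left_ne_zero_of_mul hxG)
  have hxG1 := right_ne_zero_of_mul (left_ne_zero_of_mul (left_ne_zero_of_mul hxG))
  have hxG0 := left_ne_zero_of_mul (left_ne_zero_of_mul (left_ne_zero_of_mul hxG))
  have hxI : OnX I x := fun F hF hFh => hx F (hC.le hF) hFh
  obtain ⟨P, hP, hc, c, t, hc0, ht, hxP⟩ := hall x hxI hxG0
  obtain ⟨b', hb', hbt⟩ := hc.fibre
  have hxP' : x = fun j => c * (P j).eval t := funext hxP
  have hon : ∀ s, OnX I fun j => (P j).eval s := by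
    intro s F hF hFh
    rw [← eval_aeval, hP.mem F hF hFh, Polynomial.eval_zero]
  have hxb' : InFibre g b' x := by
    intro u v
    have h1 := hbt t u v
    rw [hxP', UG.eval_homog (hg u), UG.eval_homog (hg v)]
    linear_combination c ^ δ * h1
  have hPb : ∀ s, InFibre g b fun j => (P j).eval s := fun s =>
    hsep b b' x _ hb hb' hxG1 (hC.fib x hx) hxb' (hon s) (hbt s)
  have hG30 : (aeval P G3 : Polynomial ℂ) ≠ 0 := by
    intro h0
    apply hxG3
    rw [hxP', UG.eval_homog hG3, ← eval_aeval, h0, Polynomial.eval_zero, mul_zero]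
  have hPJ : GmBdd J Q N P := by
    refine ⟨hP.deg, fun F hF hFh => ?_, hP.off, hP.nc⟩
    have h1 : (aeval P F : Polynomial ℂ) * aeval P G3 = 0 := by
      apply Polynomial.funext
      intro s
      rw [Polynomial.eval_mul, eval_aeval, eval_aeval, Polynomial.eval_zero]
      by_cases h2 : eval (fun j => (P j).eval s) G3 = 0
      · rw [h2, mul_zero]
      · rw [hall3 _ (hon s) (hPb s) h2 F hF hFh, zero_mul]
    exact (mul_eq_zero.1 h1).resolve_right hG30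
  apply hxG2
  rw [hxP', UG.eval_homog hG2, hall2 P hPJ t, mul_zero]

end Pool.Agent.V1153.FB
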