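import Pool.Agent.Y737.IL.Rc

/-!
Extension of points, from the theorem of Chevalley.
-/

set_option autoImplicit false

namespace Pool.Agent.V1153.FB

/-- Points of an open subset of the closure of the image of a morphism lift. -/
theorem ext_pt {R S : Type} [CommRing R] [Algebra ℂ R] [IsNoetherianRing R] [CommRing S] [IsDomain S]
    [Algebra ℂ S] [Algebra.FiniteType ℂ S] (φ : R →ₐ[ℂ] S) {w : S} (hw : w ≠ 0) :
    ∃ r : R, φ r ≠ 0 ∧ ∀ ψ : R →ₐ[ℂ] ℂ, ψ r ≠ 0 → (∀ a, φ a = 0 → ψ a = 0) →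
      ∃ h : S →ₐ[ℂ] ℂ, h w ≠ 0 ∧ ∀ a, h (φ a) = ψ a := by
  classical
  have hft : (φ : R →+* S).FiniteType := by
    let _ : Algebra R S := (φ : R →+* S).toAlgebra
    have _ : IsScalarTower ℂ R S := IsScalarTower.of_algebraMap_eq fun c => (φ.commutes c).symm
    have h1 : Algebra.FiniteType R S := Algebra.FiniteType.of_restrictScalars_finiteType ℂ R S
    exact h1
  have hfp : (φ : R →+* S).FinitePresentation := RingHom.FinitePresentation.of_finiteType.1 hft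
  have hcon := PrimeSpectrum.isConstructible_comap_image hfp
    (PrimeSpectrum.isConstructible_basicOpen (f := w))
  obtain ⟨D, hD⟩ := PrimeSpectrum.exists_constructibleSetData_iff.2 hcon
  let η : PrimeSpectrum S := ⟨⊥, Ideal.isPrime_bot⟩
  have hη : PrimeSpectrum.comap (φ : R →+* S) η ∈ D.toSet := by
    rw [hD]
    refine ⟨η, ?_, rfl⟩
    change w ∉ (⊥ : Ideal S)
    rwa [Ideal.mem_bot]
  unfold PrimeSpectrum.ConstructibleSetData.toSet at hη
  rw [Set.mem_iUnion₂] at hη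
  obtain ⟨C, hC, hη⟩ := hη
  obtain ⟨hg, hf⟩ := hη
  have hker : ∀ a : R, a ∈ (PrimeSpectrum.comap (φ : R →+* S) η).asIdeal ↔ φ a = 0 := by
    intro a
    change φ a ∈ (⊥ : Ideal S) ↔ _
    rw [Ideal.mem_bot]
  have hf' : φ C.f ≠ 0 := by
    intro h0
    apply hf
    rw [PrimeSpectrum.mem_zeroLocus, Set.singleton_subset_iff]
    exact (hker _).2 h0
  refine ⟨C.f, hf', fun ψ hψ hker' => ?_⟩
  let p : PrimeSpectrum R := ⟨RingHom.ker ψ, RingHom.ker_isPrime ψ⟩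
  have hp : p ∈ D.toSet := by
    unfold PrimeSpectrum.ConstructibleSetData.toSet
    rw [Set.mem_iUnion₂]
    refine ⟨C, hC, ?_, fun h1 => hψ ?_⟩
    · rw [PrimeSpectrum.mem_zeroLocus]
      rintro _ ⟨i, rfl⟩
      change ψ (C.g i) = 0
      apply hker'
      rw [← hker]
      exact (PrimeSpectrum.mem_zeroLocus _ _).1 hg ⟨i, rfl⟩
    · rw [PrimeSpectrum.mem_zeroLocus, Set.singleton_subset_iff] at h1
      exact h1
  rw [hD] at hp
  obtain ⟨𝔮, hwq, hq⟩ := hp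
  have hwq' : w ∉ 𝔮.asIdeal := hwq
  have _ : 𝔮.asIdeal.IsPrime := 𝔮.isPrime
  have hdom : IsDomain (S ⧸ 𝔮.asIdeal) := Ideal.Quotient.isDomain _
  have hft2 : Algebra.FiniteType ℂ (S ⧸ 𝔮.asIdeal) :=
    Algebra.FiniteType.of_surjective (Ideal.Quotient.mkₐ ℂ 𝔮.asIdeal) Ideal.Quotient.mk_surjective
  obtain ⟨h, hh⟩ := Pool.Agent.Y737.IL.exists_pt (S ⧸ 𝔮.asIdeal) (Ideal.Quotient.mk 𝔮.asIdeal w)
    (by rwa [Ne, Ideal.Quotient.eq_zero_iff_mem])
  refine ⟨h.comp (Ideal.Quotient.mkₐ ℂ 𝔮.asIdeal), hh, fun a => ?_⟩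
  have h1 : a - algebraMap ℂ R (ψ a) ∈ p.asIdeal := by
    change ψ _ = 0
    rw [map_sub, AlgHom.commutes]
    exact sub_self _
  rw [← hq] at h1
  have h2 : φ (a - algebraMap ℂ R (ψ a)) ∈ 𝔮.asIdeal := h1
  have h3 : (h.comp (Ideal.Quotient.mkₐ ℂ 𝔮.asIdeal)) (φ (a - algebraMap ℂ R (ψ a))) = 0 := by
    rw [AlgHom.comp_apply, Ideal.Quotient.mkₐ_eq_mk, Ideal.Quotient.eq_zero_iff_mem.2 h2, map_zero]
  rw [map_sub, map_sub, AlgHom.commutes, AlgHom.commutes, sub_eq_zero] at h3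
  exact h3

end Pool.Agent.V1153.FB
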