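import Pool.Agent.V1153.FB.ArT
import Pool.Agent.V1153.FB.Ext

/-!
If the fibres are covered by curves of the punctured line, then there is such a curve through every
point of a nonempty open subset.
-/

set_option autoImplicit false

namespace Pool.Agent.V1153.FB

open MvPolynomial Pool.Agent.Y377.IL
open Pool.Agent.V1153.UG (GmBdd GmThin eval_aeval)

/-- a model of a curve over a finitely generated algebra -/
theorem model {N m : ℕ} {Q : MvPolynomial (Fin (N + 1)) ℂ} {S : Set (MvPolynomial (Fin (N + 1)) ℂ)}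
    (g : Fin (m + 1) → MvPolynomial (Fin (N + 1)) ℂ)
    {M : Type} [Field M] [Algebra ℂ M] {P : Fin (N + 1) → Polynomial M}
    (hP : ∀ G ∈ S, aeval P G = 0) (hW : ConstOn g P)
    (hQ : ∃ (c : M) (k : ℕ), c ≠ 0 ∧ aeval P Q = Polynomial.C c * Polynomial.X ^ k)
    (hn : ∃ j k, Polynomial.derivative (P j) * P k ≠ P j * Polynomial.derivative (P k)) :
    ∃ (A : Subalgebra ℂ M) (_ : Algebra.FiniteType ℂ A) (P0 : Fin (N + 1) → Polynomial A) (w : A),
      w ≠ 0 ∧ (∀ G : MvPolynomial (Fin (N + 1)) ℂ,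
        (aeval P0 G).map (A.val : A →+* M) = aeval P G) ∧
      ∀ h : A →ₐ[ℂ] ℂ, h w ≠ 0 →
        (∀ j, ((P0 j).map (h : A →+* ℂ)).natDegree ≤ (P j).natDegree) ∧
        (∀ G ∈ S, aeval (fun l => (P0 l).map (h : A →+* ℂ)) G = 0) ∧
        (∃ (c : ℂ) (k : ℕ), c ≠ 0 ∧ aeval (fun l => (P0 l).map (h : A →+* ℂ)) Q =
          Polynomial.C c * Polynomial.X ^ k) ∧
        (∃ j k, Polynomial.derivative ((P0 j).map (h : A →+* ℂ)) * (P0 k).map (h : A →+* ℂ) ≠
          (P0 j).map (h : A →+* ℂ) * Polynomial.derivative ((P0 k).map (h : A →+* ℂ))) ∧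
        ConstOn g fun l => (P0 l).map (h : A →+* ℂ) := by
  classical
  obtain ⟨c, k0, hc0, hQ⟩ := hQ
  obtain ⟨j, k, hjk⟩ := hn
  let s : Finset M := Finset.univ.biUnion fun l : Fin (N + 1) => (P l).coeffs
  let A : Subalgebra ℂ M := Algebra.adjoin ℂ (s : Set M)
  have hft : Algebra.FiniteType ℂ A := A.fg_iff_finiteType.1 (Subalgebra.fg_adjoin_finset s)
  have hcoef : ∀ l i, (P l).coeff i ∈ A := by
    intro l i
    by_cases h0 : (P l).coeff i = 0
    · rw [h0]
      exact A.zero_mem
    · refine Algebra.subset_adjoin ?_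
      rw [Finset.mem_coe, Finset.mem_biUnion]
      exact ⟨l, Finset.mem_univ _, Polynomial.coeff_mem_coeffs h0⟩
  have hl : ∀ l, ∃ q : Polynomial A, q.map (A.val : A →+* M) = P l := by
    intro l
    rw [← Polynomial.mem_lifts, Polynomial.lifts_iff_coeff_lifts]
    intro i
    exact ⟨⟨_, hcoef l i⟩, rfl⟩
  choose P0 hP0 using hl
  have hinj : Function.Injective (Polynomial.map (A.val : A →+* M)) :=
    Polynomial.map_injective _ Subtype.val_injective
  have hev : ∀ G : MvPolynomial (Fin (N + 1)) ℂ, (aeval P0 G).map (A.val : A →+* M) = aeval P G := by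
    intro G
    have h1 := comp_aeval_apply (f := P0) (Polynomial.mapAlgHom A.val) G
    have h2 : (fun i => Polynomial.mapAlgHom A.val (P0 i)) = P := funext hP0
    rw [h2] at h1
    exact h1
  obtain ⟨c1, hc1⟩ : ∃ c1 : A, (c1 : M) = c := by
    refine ⟨(aeval P0 Q : Polynomial A).coeff k0, ?_⟩
    have h1 := congrArg (fun q : Polynomial M => q.coeff k0) (hev Q)
    simp only [Polynomial.coeff_map] at h1
    rw [hQ, Polynomial.coeff_C_mul, Polynomial.coeff_X_pow_self, mul_one] at h1
    exact h1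
  have hc10 : c1 ≠ 0 := by
    rintro rfl
    exact hc0 hc1.symm
  have hQ0 : (aeval P0 Q : Polynomial A) = Polynomial.C c1 * Polynomial.X ^ k0 := by
    apply hinj
    rw [hev, hQ, Polynomial.map_mul, Polynomial.map_pow, Polynomial.map_X, Polynomial.map_C, ← hc1]
    rfl
  have hw : ∃ n', (Polynomial.derivative (P0 j) * P0 k -
      P0 j * Polynomial.derivative (P0 k)).coeff n' ≠ 0 := by
    by_contra hcon
    push Not at hcon
    apply hjk
    have h1 : Polynomial.derivative (P0 j) * P0 k - P0 j * Polynomial.derivative (P0 k) = 0 :=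
      Polynomial.ext fun n => by rw [hcon n, Polynomial.coeff_zero]
    have h2 := congrArg (Polynomial.map (A.val : A →+* M)) (sub_eq_zero.1 h1)
    rw [Polynomial.map_mul, Polynomial.map_mul, ← Polynomial.derivative_map,
      ← Polynomial.derivative_map, hP0, hP0] at h2
    exact h2
  obtain ⟨n', hn'⟩ := hw
  refine ⟨A, hft, P0, _, mul_ne_zero hn' hc10, hev, fun h hh => ?_⟩
  rw [map_mul] at hh
  have hh3 := right_ne_zero_of_mul hh
  have hh2 := left_ne_zero_of_mul hh
  have hevh : ∀ G : MvPolynomial (Fin (N + 1)) ℂ,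
      aeval (fun l => (P0 l).map (h : A →+* ℂ)) G = (aeval P0 G).map (h : A →+* ℂ) := by
    intro G
    exact (comp_aeval_apply (f := P0) (Polynomial.mapAlgHom h) G).symm
  refine ⟨fun l => ?_, fun G hGS => ?_, ⟨h c1, k0, hh3, ?_⟩, ⟨j, k, fun hc => hh2 ?_⟩,
    fun u v => ?_⟩
  · refine Polynomial.natDegree_map_le.trans ?_
    rw [← hP0 l]
    exact (Polynomial.natDegree_map_eq_of_injective Subtype.val_injective (P0 l)).ge
  · have h1 : (aeval P0 G : Polynomial A) = 0 := by
      apply hinj
      rw [hev, hP G hGS, Polynomial.map_zero]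
    rw [hevh, h1, Polynomial.map_zero]
  · rw [hevh, hQ0, Polynomial.map_mul, Polynomial.map_pow, Polynomial.map_X, Polynomial.map_C]
    rfl
  · have h1 : ((Polynomial.derivative (P0 j) * P0 k - P0 j * Polynomial.derivative (P0 k)).map
        (h : A →+* ℂ)) = 0 := by
      rw [Polynomial.map_sub, Polynomial.map_mul, Polynomial.map_mul, ← Polynomial.derivative_map,
        ← Polynomial.derivative_map, hc, sub_self]
    have h2 := congrArg (fun q : Polynomial ℂ => q.coeff n') h1
    simp only [Polynomial.coeff_map, Polynomial.coeff_zero] at h2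
    exact h2
  · have h1 : Polynomial.derivative (aeval P0 (g u) : Polynomial A) * aeval P0 (g v) =
        aeval P0 (g u) * Polynomial.derivative (aeval P0 (g v)) := by
      apply hinj
      rw [Polynomial.map_mul, Polynomial.map_mul, ← Polynomial.derivative_map,
        ← Polynomial.derivative_map, hev, hev]
      exact hW u v
    have h2 := congrArg (Polynomial.map (h : A →+* ℂ)) h1
    rw [Polynomial.map_mul, Polynomial.map_mul, ← Polynomial.derivative_map,
      ← Polynomial.derivative_map] at h2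
    rw [hevh, hevh]
    exact h2

variable {n m : ℕ}

theorem aeval_eq (x : Fin (n + 1) → ℂ) (a : MvPolynomial (Fin (n + 1)) ℂ) :
    aeval x a = eval x a := by
  rw [← MvPolynomial.coe_aeval_eq_eval]
  rfl

theorem cone_gen {A : Type} [CommRing A] [Algebra ℂ A] (P : Fin (n + 1) → Polynomial A)
    {F : MvPolynomial (Fin (n + 1)) ℂ} {d : ℕ} (hF : F.IsHomogeneous d) :
    (aeval (fun j => Polynomial.X * Polynomial.C (P j)) F : Polynomial (Polynomial A)) =
      Polynomial.X ^ d * Polynomial.C (aeval P F) := by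
  rw [aeval_def, eval₂_eq']
  have h2 : (Polynomial.C (aeval P F) : Polynomial (Polynomial A)) =
      ∑ s ∈ F.support, algebraMap ℂ (Polynomial (Polynomial A)) (coeff s F) *
        ∏ i, (Polynomial.C (P i) : Polynomial (Polynomial A)) ^ s i := by
    rw [aeval_def, eval₂_eq', map_sum]
    refine Finset.sum_congr rfl fun s _ => ?_
    rw [map_mul, map_prod]
    simp only [map_pow]
    rfl
  rw [h2, Finset.mul_sum]
  refine Finset.sum_congr rfl fun s hs => ?_
  have h3 := hF (mem_support_iff.1 hs)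
  rw [Finsupp.weight_apply, Finsupp.sum_fintype _ _ (by simp)] at h3
  have h4 : ∑ i, s i = d := by simpa using h3
  simp_rw [mul_pow]
  rw [Finset.prod_mul_distrib, Finset.prod_pow_eq_pow_sum, h4]
  ring

/-- **Curves through all points of an open subset.** -/
theorem FibRuled.open {I : Ideal (MvPolynomial (Fin (n + 1)) ℂ)}
    {Q : MvPolynomial (Fin (n + 1)) ℂ} {g : Fin (m + 1) → MvPolynomial (Fin (n + 1)) ℂ}
    (h : FibRuled I Q g) : ∃ (N : ℕ) (G : MvPolynomial (Fin (n + 1)) ℂ),
      (∃ d, G.IsHomogeneous d) ∧ G ∉ I ∧ ∀ x : Fin (n + 1) → ℂ, OnX I x → eval x G ≠ 0 →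
        ∃ P, GmBdd I Q N P ∧ ConstOn g P ∧ ∃ c t : ℂ, c ≠ 0 ∧ t ≠ 0 ∧
          ∀ j, x j = c * (P j).eval t := by
  classical
  obtain ⟨L, _, _, P, hP, hQ, hdom, hn, hc⟩ := h
  obtain ⟨A, hft, P0, w, hw, hev, hall⟩ := model (S := {F | F ∈ I ∧ ∃ m, F.IsHomogeneous m}) g
    (fun F hF => hP F hF.1 hF.2) hc hQ hn
  have hinj : Function.Injective (Polynomial.map (A.val : A →+* L)) :=
    Polynomial.map_injective _ Subtype.val_injective
  -- the morphism from the cone
  let φ : MvPolynomial (Fin (n + 1)) ℂ →ₐ[ℂ] Polynomial (Polynomial A) :=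
    aeval fun j => (Polynomial.X * Polynomial.C (P0 j) : Polynomial (Polynomial A))
  have hφh : ∀ (F : MvPolynomial (Fin (n + 1)) ℂ) (d : ℕ), F.IsHomogeneous d →
      φ F = (Polynomial.X ^ d * Polynomial.C (aeval P0 F) : Polynomial (Polynomial A)) := by
    exact fun F d hF => cone_gen P0 hF
  have hsum : ∀ a : MvPolynomial (Fin (n + 1)) ℂ, φ a = ∑ i ∈ Finset.range (a.totalDegree + 1),
      (Polynomial.X ^ i * Polynomial.C (aeval P0 (homogeneousComponent i a)) :
        Polynomial (Polynomial A)) := by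
    intro a
    conv_lhs => rw [← sum_homogeneousComponent a]
    rw [map_sum]
    exact Finset.sum_congr rfl fun i _ => hφh _ i (homogeneousComponent_isHomogeneous i a)
  have hcoef : ∀ (a : MvPolynomial (Fin (n + 1)) ℂ) (i : ℕ), i < a.totalDegree + 1 →
      (φ a).coeff i = aeval P0 (homogeneousComponent i a) := by
    intro a i hi
    rw [hsum a, Polynomial.finsetSum_coeff, Finset.sum_eq_single i]
    · rw [Polynomial.coeff_X_pow_mul', if_pos le_rfl, Nat.sub_self, Polynomial.coeff_C_zero]
    · intro j _ hj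
      rw [Polynomial.coeff_X_pow_mul']
      split_ifs with h1
      · rw [Polynomial.coeff_C, if_neg (by omega)]
      · rfl
    · intro h1
      exact absurd (Finset.mem_range.2 hi) h1
  have hP0 : ∀ F : MvPolynomial (Fin (n + 1)) ℂ, (∃ d, F.IsHomogeneous d) →
      ((aeval P0 F : Polynomial A) = 0 ↔ F ∈ I) := by
    intro F hF
    constructor
    · intro h0
      by_contra h1
      apply hdom F hF h1
      rw [← hev, h0, Polynomial.map_zero]
    · intro h0
      apply hinj
      rw [hev, hP F h0 hF, Polynomial.map_zero]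
  obtain ⟨r, hr, hext⟩ := ext_pt φ (w := Polynomial.C (Polynomial.C w) *
    Polynomial.C Polynomial.X * Polynomial.X) (mul_ne_zero (mul_ne_zero
      (Polynomial.C_ne_zero.2 (Polynomial.C_ne_zero.2 hw))
      (Polynomial.C_ne_zero.2 Polynomial.X_ne_zero)) Polynomial.X_ne_zero)
  obtain ⟨d, hd, hrd⟩ : ∃ d < r.totalDegree + 1,
      (aeval P0 (homogeneousComponent d r) : Polynomial A) ≠ 0 := by
    by_contra hcon
    push Not at hcon
    apply hr
    rw [hsum r]
    refine Finset.sum_eq_zero fun i hi => ?_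
    rw [hcon i (Finset.mem_range.1 hi), Polynomial.C_0, mul_zero]
  refine ⟨Finset.univ.sup fun j => (P j).natDegree, homogeneousComponent d r,
    ⟨d, homogeneousComponent_isHomogeneous d r⟩, fun h0 => hrd ((hP0 _
      ⟨d, homogeneousComponent_isHomogeneous d r⟩).2 h0), fun x hx hxG => ?_⟩
  -- the scaling
  let ρ : Polynomial ℂ := ∑ i ∈ Finset.range (r.totalDegree + 1),
    Polynomial.C (eval x (homogeneousComponent i r)) * Polynomial.X ^ i
  have hρ : ρ ≠ 0 := by
    intro h0
    apply hxG
    have h1 := congrArg (fun p : Polynomial ℂ => p.coeff d) h0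
    simp only [ρ, Polynomial.finsetSum_coeff, Polynomial.coeff_C_mul, Polynomial.coeff_X_pow,
      Polynomial.coeff_zero] at h1
    rw [Finset.sum_eq_single d, if_pos rfl, mul_one] at h1
    · exact h1
    · intro j _ hj
      rw [if_neg (Ne.symm hj), mul_zero]
    · intro h2
      exact absurd (Finset.mem_range.2 hd) h2
  obtain ⟨l, hl⟩ := UG.poly_ne (mul_ne_zero hρ Polynomial.X_ne_zero)
  rw [Polynomial.eval_mul, Polynomial.eval_X] at hl
  have hl0 := right_ne_zero_of_mul hl
  have hlr := left_ne_zero_of_mul hl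
  have hev2 : eval (fun j => l * x j) r = ρ.eval l := by
    conv_lhs => rw [← sum_homogeneousComponent r]
    rw [map_sum, Polynomial.eval_finsetSum]
    refine Finset.sum_congr rfl fun i _ => ?_
    rw [UG.eval_homog (homogeneousComponent_isHomogeneous i r), Polynomial.eval_mul,
      Polynomial.eval_C, Polynomial.eval_pow, Polynomial.eval_X]
    ring
  obtain ⟨h, hh, hhφ⟩ := hext (aeval fun j => l * x j) (by
    rw [aeval_eq, hev2]
    exact hlr) (by
    intro a ha
    rw [aeval_eq, ← sum_homogeneousComponent a, map_sum]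
    refine Finset.sum_eq_zero fun i hi => ?_
    have h1 : (aeval P0 (homogeneousComponent i a) : Polynomial A) = 0 := by
      rw [← hcoef a i (Finset.mem_range.1 hi), ha, Polynomial.coeff_zero]
    rw [UG.eval_homog (homogeneousComponent_isHomogeneous i a), hx _ ((hP0 _
      ⟨i, homogeneousComponent_isHomogeneous i a⟩).1 h1)
      ⟨i, homogeneousComponent_isHomogeneous i a⟩, mul_zero])
  let hA : A →ₐ[ℂ] ℂ := (h.comp (Polynomial.CAlgHom : Polynomial A →ₐ[ℂ]
    Polynomial (Polynomial A))).comp (Polynomial.CAlgHom : A →ₐ[ℂ] Polynomial A)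
  rw [map_mul, map_mul] at hh
  have hy0 := right_ne_zero_of_mul hh
  have hw0 := left_ne_zero_of_mul (left_ne_zero_of_mul hh)
  have ht0 := right_ne_zero_of_mul (left_ne_zero_of_mul hh)
  have hCp : ∀ p : Polynomial A, h (Polynomial.C p) =
      (p.map (hA : A →+* ℂ)).eval (h (Polynomial.C Polynomial.X)) := by
    intro p
    induction p using Polynomial.induction_on' with
    | add p q hp hq =>
      rw [Polynomial.C_add, map_add, hp, hq, Polynomial.map_add, Polynomial.eval_add]
    | monomial i a =>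
      rw [← Polynomial.C_mul_X_pow_eq_monomial, Polynomial.C_mul, Polynomial.C_pow, map_mul,
        map_pow, Polynomial.map_mul, Polynomial.map_C, Polynomial.map_pow, Polynomial.map_X,
        Polynomial.eval_mul, Polynomial.eval_C, Polynomial.eval_pow, Polynomial.eval_X]
      rfl
  obtain ⟨h1, h2, h3, h4, h5⟩ := hall hA hw0
  refine ⟨_, ⟨fun j => (h1 j).trans (Finset.le_sup (f := fun j => (P j).natDegree)
    (Finset.mem_univ j)), fun F hF hFh => h2 F ⟨hF, hFh⟩, h3, UG.nc_of_wr h4⟩, h5,
    h Polynomial.X / l, h (Polynomial.C Polynomial.X), div_ne_zero hy0 hl0, ht0, fun j => ?_⟩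
  have h6 : h (φ (X j)) = l * x j := (hhφ (X j)).trans (aeval_X _ j)
  have h7 : φ (X j) = (Polynomial.X * Polynomial.C (P0 j) : Polynomial (Polynomial A)) :=
    aeval_X _ j
  rw [h7, map_mul, hCp] at h6
  rw [div_mul_eq_mul_div, h6, mul_div_cancel_left₀ _ hl0]

end Pool.Agent.V1153.FB
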