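import Pool.Agent.V1153.FB.ArL
import Pool.Agent.V1153.UR.Eqv

/-!
Morphisms from pointed varieties given by iterated recurrences.
-/

set_option autoImplicit false

namespace Pool.Agent.V1153.FB

open MvPolynomial Pool.Agent.Y377.EL Pool.Agent.Y377.IL Pool.Agent.Y377.IR Pool.Agent.Y377.ST
open Pool.Agent.V1153.UG (sg GmBdd GmThin GmRuled eval_aeval)
open Pool.Agent.V1153.IT
open scoped Cardinal

variable {n m : ℕ}

/-- fields of the cardinality of the continuum can be embedded in the complex numbers -/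
theorem emb_of_card (L : Type) [Field L] [Algebra ℂ L] (h : #L ≤ 𝔠) : Nonempty (L →+* ℂ) := by
  have hL : CharZero L := charZero_of_injective_algebraMap (algebraMap ℂ L).injective
  have hK : CharZero (AlgebraicClosure L) :=
    charZero_of_injective_algebraMap (algebraMap L (AlgebraicClosure L)).injective
  have h1 : #(AlgebraicClosure L) = 𝔠 := by
    refine le_antisymm ?_ ?_
    · refine (Algebra.IsAlgebraic.cardinalMk_le_max L (AlgebraicClosure L)).trans ?_
      exact max_le h Cardinal.aleph0_le_continuum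
    · rw [← Cardinal.mk_complex]
      exact Cardinal.mk_le_of_injective (f := fun c : ℂ => algebraMap L (AlgebraicClosure L)
        (algebraMap ℂ L c)) ((algebraMap L (AlgebraicClosure L)).injective.comp
          (algebraMap ℂ L).injective)
  obtain ⟨φ⟩ := IsAlgClosed.ringEquiv_of_equiv_of_charZero
    (K := AlgebraicClosure L) (L := ℂ) (by rw [h1]; exact Cardinal.aleph0_lt_continuum)
    (Cardinal.eq.1 (by rw [h1, Cardinal.mk_complex]))
  exact ⟨(φ : AlgebraicClosure L →+* ℂ).comp (algebraMap L (AlgebraicClosure L))⟩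

/-- `f_h`, `h ∈ H`, is a family of morphisms from `Spec R` to the complement of `Q = 0` in the
projective variety with the ideal `I`, given by homogeneous coordinates in `R` which satisfy iterated
recurrences of type `(s, r, e)` over the field `L` containing `R`, and which map the point `c` of
`Spec R` to the point `x`. -/
structure PtFamily (s r e : ℕ) (I : Ideal (MvPolynomial (Fin (n + 1)) ℂ))
    (Q : MvPolynomial (Fin (n + 1)) ℂ) (x : Fin (n + 1) → ℂ) {R L : Type} [CommRing R] [Algebra ℂ R]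
    [Field L] [Algebra ℂ L] (ι : R →ₐ[ℂ] L) (c : R →ₐ[ℂ] ℂ) {H : Type} [Group H]
    (f : H → Fin (n + 1) → R) : Prop where
  on : ∀ h, ∀ F ∈ I, (∃ d, F.IsHomogeneous d) → aeval (f h) F = 0
  off : ∀ h, IsUnit (aeval (f h) Q)
  pt : ∀ h, ∃ l : ℂ, l ≠ 0 ∧ ∀ j, c (f h j) = l * x j
  it : IterOff s r e (map (algebraMap ℂ L) Q) fun h j => ι (f h j)

/-- the different morphisms `f_h` -/
def morphs {R L : Type} [CommRing R] [Algebra ℂ R] [Field L] [Algebra ℂ L] (ι : R →ₐ[ℂ] L)
    {H : Type} (f : H → Fin (n + 1) → R) : Set (Projectivization L (Fin (n + 1) → L)) :=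
  {p | ∃ (h : H) (h0 : (fun j => ι (f h j)) ≠ 0), p = Projectivization.mk L _ h0}

/-- For every type `(s, r, e)` there are a proper closed subset `Z` of `X` and a number `B` such that
for every point `x` outside of `Z` and every pointed variety every family of morphisms to `X` which
map the base point to `x`, given by iterated recurrences of type `(s, r, e)`, has at most
`B` members. -/
def PtUniform (I : Ideal (MvPolynomial (Fin (n + 1)) ℂ)) (Q : MvPolynomial (Fin (n + 1)) ℂ) : Prop :=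
  ∀ s r e : ℕ, ∃ (G : MvPolynomial (Fin (n + 1)) ℂ) (B : ℕ), (∃ d, G.IsHomogeneous d) ∧ G ∉ I ∧
    ∀ x : Fin (n + 1) → ℂ, eval x G ≠ 0 →
      ∀ (R L : Type) [CommRing R] [Algebra ℂ R] [Field L] [Algebra ℂ L] (ι : R →ₐ[ℂ] L)
        (c : R →ₐ[ℂ] ℂ), Function.Injective ι → #L ≤ 𝔠 →
        ∀ (H : Type) [Group H] (f : H → Fin (n + 1) → R), PtFamily s r e I Q x ι c f →
          (morphs ι f).encard ≤ (B : ℕ∞)

theorem fibThin_one {I : Ideal (MvPolynomial (Fin (n + 1)) ℂ)}
    {Q : MvPolynomial (Fin (n + 1)) ℂ} (h : GmThin I Q) :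
    FibThin I Q (fun _ : Fin (0 + 1) => (1 : MvPolynomial (Fin (n + 1)) ℂ)) := by
  intro N
  obtain ⟨G, hG, hGI, hall⟩ := h N
  exact ⟨G, hG, hGI, fun P hP _ => hall P hP⟩

theorem ptUniform_of_thin {I : Ideal (MvPolynomial (Fin (n + 1)) ℂ)} (hI : I.IsPrime)
    {Q : MvPolynomial (Fin (n + 1)) ℂ} {q : ℕ} (hQ : Q.IsHomogeneous q) (h : GmThin I Q) :
    PtUniform I Q := by
  intro s r e
  obtain ⟨G, B, ⟨a, hG⟩, hGI, hall⟩ := arith_L (fun _ => isHomogeneous_one _ _) hI hQ
    (fibThin_one h) s r e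
  refine ⟨G, B, ⟨a, hG⟩, hGI, fun x hx R L _ _ _ _ ι c hι hL H _ f hf => ?_⟩
  obtain ⟨τ⟩ := emb_of_card L hL
  have hev : ∀ h F, aeval (fun j => ι (f h j)) F = ι (aeval (f h) F) := fun h F =>
    (comp_aeval_apply (f := f h) ι F).symm
  have h1 := hall L τ (fun _ => 1) (fun h0 => one_ne_zero (congrFun h0 0)) H
    (fun h j => ι (f h j)) (fun h F hF hFh => by rw [hev, hf.on h F hF hFh, map_zero])
    (fun h u v => rfl) hf.it
  refine (Set.encard_le_encard ?_).trans h1
  rintro p ⟨h, h0, rfl⟩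
  refine ⟨h, h0, ?_, rfl⟩
  rw [hev, Ne, map_eq_zero_iff ι hι]
  intro h2
  apply hx
  have h3 := congrArg c h2
  rw [map_zero, comp_aeval_apply] at h3
  obtain ⟨l, hl, hlx⟩ := hf.pt h
  rw [funext hlx, aeval_eq, UG.eval_homog hG] at h3
  exact (mul_eq_zero.1 h3).resolve_left (pow_ne_zero _ hl)


/-! ### The converse -/

/-- the family of the points `P(u(h))` of a curve -/
theorem iter_curveL {L : Type} [Field L] [Algebra ℂ L] {D N : ℕ}
    {I : Ideal (MvPolynomial (Fin (n + 1)) ℂ)}
    {Q : MvPolynomial (Fin (n + 1)) ℂ} {q : ℕ} (hq : q ≤ D) (hQ : Q.IsHomogeneous q)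
    {P : Fin (n + 1) → Polynomial ℂ} (hP : GmBdd I Q N P) {H : Type} [Group H] {u : H → L}
    (hu : ∀ g h, u (g * h) = u g * u h) (hu0 : ∀ h, u h ≠ 0) :
    IterOff 1 1 (D * N + N) (map (algebraMap ℂ L) Q)
      fun h j => Polynomial.aeval (u h) (P j) := by
  classical
  obtain ⟨c, κ, hc, hκ⟩ := hP.off
  have hdQ : (aeval P Q : Polynomial ℂ).natDegree ≤ q * N := by
    rw [aeval_def, eval₂_eq]
    refine Polynomial.natDegree_sum_le_of_forall_le _ _ fun u hu => ?_
    refine Polynomial.natDegree_mul_le.trans ?_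
    have h1 : (algebraMap ℂ (Polynomial ℂ) (coeff u Q)).natDegree = 0 :=
      Polynomial.natDegree_C _
    rw [h1, zero_add]
    refine (Polynomial.natDegree_prod_le _ _).trans ?_
    have h2 := hQ (mem_support_iff.1 hu)
    have h3 : ∑ i ∈ u.support, u i = q := by
      rw [← h2, Finsupp.weight_apply, Finsupp.sum]
      simp
    calc ∑ i ∈ u.support, (P i ^ u i).natDegree ≤ ∑ i ∈ u.support, u i * N :=
          Finset.sum_le_sum fun i _ => Polynomial.natDegree_pow_le.trans
            (Nat.mul_le_mul_left _ (hP.deg i))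
      _ = q * N := by rw [← Finset.sum_mul, h3]
  have hκ2 : κ ≤ D * N + N := by
    rw [hκ, Polynomial.natDegree_C_mul_X_pow _ _ hc] at hdQ
    have := Nat.mul_le_mul_right N hq
    omega
  have hcL : algebraMap ℂ L c ≠ 0 := by
    rwa [Ne, map_eq_zero_iff _ (algebraMap ℂ L).injective]
  have hQe : ∀ h, eval (fun j => Polynomial.aeval (u h) (P j)) (map (algebraMap ℂ L) Q) =
      algebraMap ℂ L c * u h ^ κ := by
    intro h
    rw [eval_map]
    change aeval (fun j => Polynomial.aeval (u h) (P j)) Q = _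
    have h1 := comp_aeval_apply (f := P) (Polynomial.aeval (u h) : Polynomial ℂ →ₐ[ℂ] L) Q
    rw [← h1, hκ, map_mul, map_pow, Polynomial.aeval_C, Polynomial.aeval_X]
  refine ⟨fun h => ?_, fun _ h => fun _ _ => u h, fun _ h => fun _ _ => (u h)⁻¹, ⟨?_, ?_⟩, ?_⟩
  · rw [hQe]
    exact mul_ne_zero hcL (pow_ne_zero _ (hu0 h))
  · intro l h
    ext i j
    rw [Matrix.mul_apply, Fin.sum_univ_one, mul_inv_cancel₀ (hu0 h), Subsingleton.elim i j,
      Matrix.one_apply_eq]
  · intro l g i j
    refine ⟨fun m => if m = 0 then u g else 0, fun h => ?_⟩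
    rw [pev_const, Matrix.mul_apply, Fin.sum_univ_one, hu, mul_assoc,
      mul_inv_cancel₀ (hu0 h), mul_one]
  · intro j
    refine Fin.cases ?_ (fun j => ?_) j
    · obtain ⟨c', hc'⟩ := pev_poly (e := D * N + N)
        (Polynomial.C (algebraMap ℂ L c)⁻¹ * Polynomial.X ^ κ)
        ((Polynomial.natDegree_C_mul_X_pow_le _ _).trans hκ2) ((0, false, 0, 0) : Ix 1 1)
      refine ⟨c', fun h => ?_⟩
      change (eval (fun j => Polynomial.aeval (u h) (P j)) (map (algebraMap ℂ L) Q))⁻¹ = _
      rw [← hc', hQe, mul_inv, Polynomial.eval_mul, Polynomial.eval_C,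
        Polynomial.eval_pow, Polynomial.eval_X, ← inv_pow]
      rfl
    · obtain ⟨c', hc'⟩ := pev_poly (e := D * N + N) ((P j).map (algebraMap ℂ L))
        (Polynomial.natDegree_map_le.trans ((hP.deg j).trans (Nat.le_add_left _ _)))
        ((0, true, 0, 0) : Ix 1 1)
      refine ⟨c', fun h => ?_⟩
      change Polynomial.aeval (u h) (P j) = _
      rw [← hc', Polynomial.aeval_def, ← Polynomial.eval_map]
      rfl

end Pool.Agent.V1153.FB
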