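import Pool.Agent.V1153.FB.Pt

/-!
Morphisms from the pointed punctured line.
-/

set_option autoImplicit false

namespace Pool.Agent.V1153.FB

open MvPolynomial Pool.Agent.Y377.EL Pool.Agent.Y377.IL Pool.Agent.Y377.IR Pool.Agent.Y377.ST
open Pool.Agent.V1153.UG (sg GmBdd GmThin GmRuled eval_aeval vanish_P Prim)
open Pool.Agent.V1153.IT
open Pool.Agent.V1153.UR (const_of_powers)
open scoped Cardinal

variable {n m : ℕ}

/-- the ring of the punctured line -/
abbrev LP : Type := LaurentPolynomial ℂ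

theorem card_LP : #LP ≤ 𝔠 := by
  have h1 : #(ℤ → ℂ) = 𝔠 := by
    rw [← Cardinal.power_def, Cardinal.mk_complex, Cardinal.mk_int,
      Cardinal.continuum_power_aleph0]
  rw [← h1]
  refine Cardinal.mk_le_of_injective (f := fun (p : LP) i => p.coeff i) ?_
  rintro ⟨p⟩ ⟨q⟩ h
  congr 1
  exact DFunLike.coe_injective h

theorem card_frac : #(FractionRing LP) ≤ 𝔠 :=
  (IsLocalization.cardinalMk_le (R := LP) (nonZeroDivisors LP)).trans card_LP

/-- the evaluation at a point of the punctured line -/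
noncomputable def ev (z : ℂˣ) : LP →ₐ[ℂ] ℂ :=
  AddMonoidAlgebra.lift ℂ ℂ ℤ ((Units.coeHom ℂ).comp (zpowersHom ℂˣ z))

theorem ev_T (z : ℂˣ) (k : ℤ) : ev z (LaurentPolynomial.T k) = ((z ^ k : ℂˣ) : ℂ) := by
  unfold ev LaurentPolynomial.T
  rw [AddMonoidAlgebra.lift_single, one_smul]
  rfl

theorem T_mul (a b : ℤ) : (LaurentPolynomial.T (a + b) : LP) =
    LaurentPolynomial.T a * LaurentPolynomial.T b := LaurentPolynomial.T_add a b

theorem T_unit (a : ℤ) : IsUnit (LaurentPolynomial.T a : LP) := LaurentPolynomial.isUnit_T a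

/-- the embedding of the ring of the punctured line in its field of fractions -/
noncomputable def incl : LP →ₐ[ℂ] FractionRing LP := IsScalarTower.toAlgHom ℂ LP (FractionRing LP)

theorem incl_inj : Function.Injective incl := IsFractionRing.injective LP (FractionRing LP)

/-- For every `e` there is a proper closed subset `Z` of `X` such that for every point `x` outside
of `Z` every sequence, indexed by `ℤ`, of morphisms from the punctured line to `X` which map `1` to
`x`, given by recurrences of type `(1, 1, e)`, has only finitely many members. -/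
def PtPowers (I : Ideal (MvPolynomial (Fin (n + 1)) ℂ)) (Q : MvPolynomial (Fin (n + 1)) ℂ) : Prop :=
  ∀ e : ℕ, ∃ G : MvPolynomial (Fin (n + 1)) ℂ, (∃ d, G.IsHomogeneous d) ∧ G ∉ I ∧
    ∀ x : Fin (n + 1) → ℂ, eval x G ≠ 0 → ∀ f : Multiplicative ℤ → Fin (n + 1) → LP,
      PtFamily 1 1 e I Q x incl (ev 1) f → (morphs incl f).Finite

/-- There is a proper closed subset `Z` of `X` such that for every point `x` outside of `Z` there are
only finitely many morphisms from the punctured line to `X` which map `1` to `x` (the definition of a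
pseudo-geometrically hyperbolic variety, for one pointed curve). -/
def PseudoGeometric (I : Ideal (MvPolynomial (Fin (n + 1)) ℂ)) (Q : MvPolynomial (Fin (n + 1)) ℂ) :
    Prop :=
  ∃ G : MvPolynomial (Fin (n + 1)) ℂ, (∃ d, G.IsHomogeneous d) ∧ G ∉ I ∧
    ∀ x : Fin (n + 1) → ℂ, eval x G ≠ 0 →
      {p : Projectivization (FractionRing LP) (Fin (n + 1) → FractionRing LP) |
        ∃ f : Fin (n + 1) → LP, (∀ F ∈ I, (∃ d, F.IsHomogeneous d) → aeval f F = 0) ∧
          IsUnit (aeval f Q) ∧ (∃ l : ℂ, l ≠ 0 ∧ ∀ j, ev 1 (f j) = l * x j) ∧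
          ∃ h0 : (fun j => incl (f j)) ≠ 0, p = Projectivization.mk _ _ h0}.Finite

theorem PtUniform.powers {I : Ideal (MvPolynomial (Fin (n + 1)) ℂ)}
    {Q : MvPolynomial (Fin (n + 1)) ℂ} (h : PtUniform I Q) : PtPowers I Q := by
  intro e
  obtain ⟨G, B, hG, hGI, hall⟩ := h 1 1 e
  exact ⟨G, hG, hGI, fun x hx f hf => Set.finite_of_encard_le_coe
    (hall x hx LP (FractionRing LP) incl (ev 1) incl_inj card_frac _ f hf)⟩

theorem PseudoGeometric.powers {I : Ideal (MvPolynomial (Fin (n + 1)) ℂ)}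
    {Q : MvPolynomial (Fin (n + 1)) ℂ} (h : PseudoGeometric I Q) : PtPowers I Q := by
  obtain ⟨G, hG, hGI, hall⟩ := h
  refine fun e => ⟨G, hG, hGI, fun x hx f hf => (hall x hx).subset ?_⟩
  rintro p ⟨h, h0, rfl⟩
  exact ⟨f h, hf.on h, hf.off h, hf.pt h, h0, rfl⟩

/-- **The converse.** -/
theorem PtPowers.thin {I : Ideal (MvPolynomial (Fin (n + 1)) ℂ)}
    {Q : MvPolynomial (Fin (n + 1)) ℂ} {q : ℕ} (hQ : Q.IsHomogeneous q) (h : PtPowers I Q) :
    GmThin I Q := by
  classical
  intro N
  obtain ⟨G, ⟨a, hG⟩, hGI, hall⟩ := h (q * N + N)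
  refine ⟨G, ⟨a, hG⟩, hGI, fun P0 hP0 => ?_⟩
  obtain ⟨g, P1, hg, hPP, hpr1⟩ := hP0.prim hQ
  refine vanish_P hPP hG fun t ht => ?_
  by_contra hGt
  have hP1 : GmBdd I Q N P1 := Pool.Agent.V1153.OD.prim_bdd hQ hP0 hg hPP hpr1
  set P : Fin (n + 1) → Polynomial ℂ := fun j => (P1 j).comp (Polynomial.C t * Polynomial.X)
    with hPd
  have hP : GmBdd I Q N P := hP1.scale ht
  have hev : ∀ j z, (P j).eval z = (P1 j).eval (t * z) := by
    intro j z
    simp only [hPd, Polynomial.eval_comp, Polynomial.eval_mul, Polynomial.eval_C,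
      Polynomial.eval_X]
  have hne : ∀ a, ∃ j, (P j).eval a ≠ 0 := by
    intro a
    obtain ⟨j, hj⟩ := hpr1.ne (t * a)
    exact ⟨j, by rwa [hev]⟩
  obtain ⟨c0, κ, hc0, hκ⟩ := hP.off
  let T : Multiplicative ℤ → LP := fun h => LaurentPolynomial.T (Multiplicative.toAdd h)
  let f : Multiplicative ℤ → Fin (n + 1) → LP := fun h j => Polynomial.aeval (T h) (P j)
  have hfe : ∀ h (F : MvPolynomial (Fin (n + 1)) ℂ), aeval (f h) F =
      Polynomial.aeval (T h) (aeval P F : Polynomial ℂ) := fun h F =>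
    (comp_aeval_apply (f := P) (Polynomial.aeval (T h) : Polynomial ℂ →ₐ[ℂ] LP) F).symm
  have hfz : ∀ (z : ℂˣ) h j, ev z (f h j) =
      (P j).eval (((z ^ (Multiplicative.toAdd h) : ℂˣ) : ℂ)) := by
    intro z h j
    change ev z (Polynomial.aeval (T h) (P j)) = _
    rw [← Polynomial.aeval_algHom_apply, ev_T, Polynomial.coe_aeval_eq_eval]
  have h1 := hall (fun j => (P j).eval 1) (by
    simp only [hev, mul_one]
    exact hGt) f
    ⟨fun h F hF hFh => by rw [hfe, hP.mem F hF hFh, map_zero], fun h => ?_, fun h => ?_, ?_⟩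
  · -- the morphisms are different
    have hf0 : ∀ h, (fun j => incl (f h j)) ≠ 0 := by
      intro h h0
      obtain ⟨j, hj⟩ := hne 1
      apply hj
      have h2 : f h j = 0 := (map_eq_zero_iff incl incl_inj).1 (congrFun h0 j)
      have h3 := hfz 1 h j
      rw [h2, map_zero, one_zpow, Units.val_one] at h3
      exact h3.symm
    let F : ℕ → Projectivization (FractionRing LP) (Fin (n + 1) → FractionRing LP) := fun k =>
      Projectivization.mk _ _ (hf0 (Multiplicative.ofAdd ((k : ℤ) + 1)))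
    have hfin : (morphs incl f).Finite := h1
    obtain ⟨k, l, hkl, hF⟩ : ∃ k l : ℕ, k < l ∧ F k = F l := by
      by_contra hcon
      push Not at hcon
      have hinj : Function.Injective F := by
        intro k l hkl
        rcases lt_trichotomy k l with h3 | h3 | h3
        · exact absurd hkl (hcon k l h3)
        · exact h3
        · exact absurd hkl.symm (hcon l k h3)
      have hmem : ∀ k, F k ∈ morphs incl f := fun k => ⟨_, hf0 _, rfl⟩
      exact Set.infinite_of_injective_forall_mem hinj hmem hfin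
    have hF' := (Projectivization.mk_eq_mk_iff' _ _ _ _ _).1 hF
    obtain ⟨b, hb⟩ := hF'
    have hcr : ∀ i j, f (Multiplicative.ofAdd ((k : ℤ) + 1)) i *
        f (Multiplicative.ofAdd ((l : ℤ) + 1)) j = f (Multiplicative.ofAdd ((k : ℤ) + 1)) j *
          f (Multiplicative.ofAdd ((l : ℤ) + 1)) i := by
      intro i j
      apply incl_inj
      rw [map_mul, map_mul]
      have h4 : b * incl (f (Multiplicative.ofAdd ((l : ℤ) + 1)) i) =
        incl (f (Multiplicative.ofAdd ((k : ℤ) + 1)) i) := congrFun hb i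
      have h5 : b * incl (f (Multiplicative.ofAdd ((l : ℤ) + 1)) j) =
        incl (f (Multiplicative.ofAdd ((k : ℤ) + 1)) j) := congrFun hb j
      rw [← h4, ← h5]
      ring
    have hcr2 : ∀ z : ℂ, z ≠ 0 → ∀ i j, (P i).eval (z ^ (k + 1)) * (P j).eval (z ^ (l + 1)) =
        (P j).eval (z ^ (k + 1)) * (P i).eval (z ^ (l + 1)) := by
      intro z hz i j
      have h4 := congrArg (ev (Units.mk0 z hz)) (hcr i j)
      rw [map_mul, map_mul, hfz, hfz, hfz, hfz] at h4
      have h5 : ∀ a : ℕ, (((Units.mk0 z hz) ^ (Multiplicative.toAdd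
          (Multiplicative.ofAdd ((a : ℤ) + 1))) : ℂˣ) : ℂ) = z ^ (a + 1) := by
        intro a
        rw [toAdd_ofAdd]
        have h6 : ((a : ℤ) + 1) = ((a + 1 : ℕ) : ℤ) := by push_cast; ring
        rw [h6, zpow_natCast, Units.val_pow_eq_pow_val, Units.val_mk0]
      rw [h5, h5] at h4
      exact h4
    have hcr3 : ∀ z : ℂ, ∀ i j, (P i).eval (z ^ (k + 1)) * (P j).eval (z ^ (l + 1)) =
        (P j).eval (z ^ (k + 1)) * (P i).eval (z ^ (l + 1)) := by
      intro z i j
      have h4 : ((P i).comp (Polynomial.X ^ (k + 1)) * (P j).comp (Polynomial.X ^ (l + 1)) -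
          (P j).comp (Polynomial.X ^ (k + 1)) * (P i).comp (Polynomial.X ^ (l + 1))) *
            Polynomial.X = 0 := by
        apply Polynomial.funext
        intro w
        simp only [Polynomial.eval_mul, Polynomial.eval_sub, Polynomial.eval_comp,
          Polynomial.eval_pow, Polynomial.eval_X, Polynomial.eval_zero]
        by_cases hw : w = 0
        · rw [hw, mul_zero]
        · rw [hcr2 w hw i j, sub_self, zero_mul]
      have h5 := (mul_eq_zero.1 h4).resolve_right Polynomial.X_ne_zero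
      have h6 := congrArg (Polynomial.eval z) h5
      simp only [Polynomial.eval_mul, Polynomial.eval_sub, Polynomial.eval_comp,
          Polynomial.eval_pow, Polynomial.eval_X, Polynomial.eval_zero] at h6
      exact sub_eq_zero.1 h6
    have h4 := const_of_powers hne (Nat.succ_pos k) (Nat.succ_lt_succ hkl) hcr3
    obtain ⟨s, t', j, i, hst⟩ := hP.nc
    exact hst (h4 s t' j i)
  · rw [hfe, hκ, map_mul, map_pow, Polynomial.aeval_C, Polynomial.aeval_X]
    exact ((isUnit_iff_ne_zero.2 hc0).map (algebraMap ℂ LP)).mul ((T_unit _).pow κ)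
  · refine ⟨1, one_ne_zero, fun j => ?_⟩
    rw [hfz, one_zpow, Units.val_one, one_mul]
  · have h2 := iter_curveL (L := FractionRing LP) (D := q) le_rfl hQ hP
      (u := fun h : Multiplicative ℤ => incl (T h)) (fun g h => by
        rw [← map_mul]
        exact congrArg incl (T_mul _ _)) (fun h => by
        rw [Ne, map_eq_zero_iff incl incl_inj]
        exact (T_unit _).ne_zero)
    have h3 : (fun (h : Multiplicative ℤ) j => Polynomial.aeval (incl (T h)) (P j)) =
        fun h j => incl (f h j) := by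
      funext h j
      exact Polynomial.aeval_algHom_apply incl (T h) (P j)
    rw [h3] at h2
    exact h2

/-- **Morphisms from pointed varieties.** -/
theorem pt_tfae {I : Ideal (MvPolynomial (Fin (n + 1)) ℂ)} (hI : I.IsPrime)
    {Q : MvPolynomial (Fin (n + 1)) ℂ} {q : ℕ} (hQ : Q.IsHomogeneous q) :
    List.TFAE [¬ GmRuled I Q, PtUniform I Q, PtPowers I Q] ∧
      (PseudoGeometric I Q → ¬ GmRuled I Q) := by
  refine ⟨?_, fun h => UG.not_ruled_of_thin (h.powers.thin hQ)⟩
  tfae_have 1 → 2 := fun h => ptUniform_of_thin hI hQ (UG.thin_of_not_ruled hI hQ h)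
  tfae_have 2 → 3 := PtUniform.powers
  tfae_have 3 → 1 := fun h => UG.not_ruled_of_thin (h.thin hQ)
  tfae_finish

end Pool.Agent.V1153.FB
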