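import Pool.Agent.V1153.UG.Gm
import Pool.Agent.V1153.UG.Main

/-!
Curves of the punctured line in the fibres of a rational map.
-/

set_option autoImplicit false

namespace Pool.Agent.V1153.FB

open MvPolynomial Pool.Agent.V1153.UG

variable {n : ℕ}

/-- The rational map with the homogeneous coordinates `g` is constant on the curve `P`: the Wronskians
of the `g_u(P)` vanish. -/
def ConstOn {n m : ℕ} (g : Fin (m + 1) → MvPolynomial (Fin (n + 1)) ℂ) {L : Type} [Field L]
    [Algebra ℂ L] (P : Fin (n + 1) → Polynomial L) : Prop :=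
  ∀ u v, Polynomial.derivative (aeval P (g u) : Polynomial L) * aeval P (g v) =
    aeval P (g u) * Polynomial.derivative (aeval P (g v) : Polynomial L)

/-- The complement of `Q = 0` in the projective variety with the ideal `I` is covered by curves of
the punctured line which are contained in the fibres of the rational map `g`. -/
def FibRuled {m : ℕ} (I : Ideal (MvPolynomial (Fin (n + 1)) ℂ)) (Q : MvPolynomial (Fin (n + 1)) ℂ)
    (g : Fin (m + 1) → MvPolynomial (Fin (n + 1)) ℂ) : Prop :=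
  ∃ (L : Type) (_ : Field L) (_ : Algebra ℂ L) (P : Fin (n + 1) → Polynomial L),
    (∀ F ∈ I, (∃ m, F.IsHomogeneous m) → aeval P F = 0) ∧
    (∃ (c : L) (k : ℕ), c ≠ 0 ∧ aeval P Q = Polynomial.C c * Polynomial.X ^ k) ∧
    (∀ G : MvPolynomial (Fin (n + 1)) ℂ, (∃ m, G.IsHomogeneous m) → G ∉ I → aeval P G ≠ 0) ∧
    (∃ j k, Polynomial.derivative (P j) * P k ≠ P j * Polynomial.derivative (P k)) ∧
    ConstOn g P

/-- For each `N` the nonconstant maps of degree at most `N` from the multiplicative group to the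
fibres of `g` have images in one proper closed subset of `X`. -/
def FibThin {m : ℕ} (I : Ideal (MvPolynomial (Fin (n + 1)) ℂ)) (Q : MvPolynomial (Fin (n + 1)) ℂ)
    (g : Fin (m + 1) → MvPolynomial (Fin (n + 1)) ℂ) : Prop :=
  ∀ N : ℕ, ∃ G : MvPolynomial (Fin (n + 1)) ℂ, (∃ m, G.IsHomogeneous m) ∧ G ∉ I ∧
    ∀ P, GmBdd I Q N P → ConstOn g P → ∀ t, eval (fun j => (P j).eval t) G = 0

theorem ConstOn.scale {m : ℕ} {g : Fin (m + 1) → MvPolynomial (Fin (n + 1)) ℂ}
    {P : Fin (n + 1) → Polynomial ℂ} (h : ConstOn g P) (t : ℂ) :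
    ConstOn g fun j => (P j).comp (Polynomial.C t * Polynomial.X) := by
  have hae : ∀ G : MvPolynomial (Fin (n + 1)) ℂ,
      aeval (fun j => (P j).comp (Polynomial.C t * Polynomial.X)) G =
        (aeval P G : Polynomial ℂ).comp (Polynomial.C t * Polynomial.X) := by
    intro G
    apply Polynomial.funext
    intro z
    rw [eval_aeval, Polynomial.eval_comp, eval_aeval]
    simp only [Polynomial.eval_comp]
  intro u v
  rw [hae, hae, Polynomial.derivative_comp, Polynomial.derivative_comp, mul_assoc,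
    ← Polynomial.mul_comp, h u v, Polynomial.mul_comp]
  ring

/-- **Specialisation of curves in fibres.** -/
theorem special_rel {N m : ℕ} {Q G' : MvPolynomial (Fin (N + 1)) ℂ} {S : Set (MvPolynomial (Fin (N + 1)) ℂ)}
    (g : Fin (m + 1) → MvPolynomial (Fin (N + 1)) ℂ)
    {M : Type} [Field M] [Algebra ℂ M] {P : Fin (N + 1) → Polynomial M}
    (hP : ∀ G ∈ S, aeval P G = 0) (hW : ConstOn g P)
    (hQ : ∃ (c : M) (k : ℕ), c ≠ 0 ∧ aeval P Q = Polynomial.C c * Polynomial.X ^ k)
    (hn : ∃ j k, Polynomial.derivative (P j) * P k ≠ P j * Polynomial.derivative (P k))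
    (hG : aeval P G' ≠ 0) :
    ∃ p : Fin (N + 1) → Polynomial ℂ, (∀ j, (p j).natDegree ≤ (P j).natDegree) ∧
      (∀ G ∈ S, aeval p G = 0) ∧
      (∃ (c : ℂ) (k : ℕ), c ≠ 0 ∧ aeval p Q = Polynomial.C c * Polynomial.X ^ k) ∧
      (∃ j k, Polynomial.derivative (p j) * p k ≠ p j * Polynomial.derivative (p k)) ∧
      aeval p G' ≠ 0 ∧ ConstOn g p := by
  classical
  obtain ⟨c, k0, hc0, hQ⟩ := hQ
  obtain ⟨j, k, hjk⟩ := hn
  let s : Finset M := Finset.univ.biUnion fun l : Fin (N + 1) => (P l).coeffs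
  let A : Subalgebra ℂ M := Algebra.adjoin ℂ (s : Set M)
  have hft : Algebra.FiniteType ℂ A := A.fg_iff_finiteType.1 (Subalgebra.fg_adjoin_finset s)
  have hcoef : ∀ l i, (P l).coeff i ∈ A := by
    intro l i
    by_cases h0 : (P l).coeff i = 0
    · rw [h0]
      exact A.zero_mem
    · refine Algebra.subset_adjoin ?_
      rw [Finset.mem_coe, Finset.mem_biUnion]
      exact ⟨l, Finset.mem_univ _, Polynomial.coeff_mem_coeffs h0⟩
  have hl : ∀ l, ∃ q : Polynomial A, q.map (A.val : A →+* M) = P l := by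
    intro l
    rw [← Polynomial.mem_lifts, Polynomial.lifts_iff_coeff_lifts]
    intro i
    exact ⟨⟨_, hcoef l i⟩, rfl⟩
  choose P0 hP0 using hl
  have hinj : Function.Injective (Polynomial.map (A.val : A →+* M)) :=
    Polynomial.map_injective _ Subtype.val_injective
  have hev : ∀ G : MvPolynomial (Fin (N + 1)) ℂ, (aeval P0 G).map (A.val : A →+* M) = aeval P G := by
    intro G
    have h1 := comp_aeval_apply (f := P0) (Polynomial.mapAlgHom A.val) G
    have h2 : (fun i => Polynomial.mapAlgHom A.val (P0 i)) = P := funext hP0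
    rw [h2] at h1
    exact h1
  obtain ⟨c1, hc1⟩ : ∃ c1 : A, (c1 : M) = c := by
    refine ⟨(aeval P0 Q : Polynomial A).coeff k0, ?_⟩
    have h1 := congrArg (fun q : Polynomial M => q.coeff k0) (hev Q)
    simp only [Polynomial.coeff_map] at h1
    rw [hQ, Polynomial.coeff_C_mul, Polynomial.coeff_X_pow_self, mul_one] at h1
    exact h1
  have hc10 : c1 ≠ 0 := by
    rintro rfl
    exact hc0 hc1.symm
  have hQ0 : (aeval P0 Q : Polynomial A) = Polynomial.C c1 * Polynomial.X ^ k0 := by
    apply hinj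
    rw [hev, hQ, Polynomial.map_mul, Polynomial.map_pow, Polynomial.map_X, Polynomial.map_C, ← hc1]
    rfl
  have hg : ∃ n, (aeval P0 G' : Polynomial A).coeff n ≠ 0 := by
    by_contra hcon
    push Not at hcon
    apply hG
    have h1 : (aeval P0 G' : Polynomial A) = 0 :=
      Polynomial.ext fun n => by rw [hcon n, Polynomial.coeff_zero]
    rw [← hev, h1, Polynomial.map_zero]
  obtain ⟨n, hn⟩ := hg
  have hw : ∃ n', (Polynomial.derivative (P0 j) * P0 k -
      P0 j * Polynomial.derivative (P0 k)).coeff n' ≠ 0 := by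
    by_contra hcon
    push Not at hcon
    apply hjk
    have h1 : Polynomial.derivative (P0 j) * P0 k - P0 j * Polynomial.derivative (P0 k) = 0 :=
      Polynomial.ext fun n => by rw [hcon n, Polynomial.coeff_zero]
    have h2 := congrArg (Polynomial.map (A.val : A →+* M)) (sub_eq_zero.1 h1)
    rw [Polynomial.map_mul, Polynomial.map_mul, ← Polynomial.derivative_map,
      ← Polynomial.derivative_map, hP0, hP0] at h2
    exact h2
  obtain ⟨n', hn'⟩ := hw
  obtain ⟨h, hh⟩ := Pool.Agent.Y737.IL.exists_pt A _ (mul_ne_zero (mul_ne_zero hn hn') hc10)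
  rw [map_mul, map_mul] at hh
  have hh3 := right_ne_zero_of_mul hh
  have hh4 := left_ne_zero_of_mul hh
  have hh1 := left_ne_zero_of_mul hh4
  have hh2 := right_ne_zero_of_mul hh4
  have hevh : ∀ G : MvPolynomial (Fin (N + 1)) ℂ,
      aeval (fun l => (P0 l).map (h : A →+* ℂ)) G = (aeval P0 G).map (h : A →+* ℂ) := by
    intro G
    exact (comp_aeval_apply (f := P0) (Polynomial.mapAlgHom h) G).symm
  refine ⟨fun l => (P0 l).map (h : A →+* ℂ), fun l => ?_, fun G hGS => ?_, ⟨h c1, k0, hh3, ?_⟩,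
    ⟨j, k, fun hc => hh2 ?_⟩, fun hfin => hh1 ?_, fun u v => ?_⟩
  · refine Polynomial.natDegree_map_le.trans ?_
    rw [← hP0 l]
    exact (Polynomial.natDegree_map_eq_of_injective Subtype.val_injective (P0 l)).ge
  · have h1 : (aeval P0 G : Polynomial A) = 0 := by
      apply hinj
      rw [hev, hP G hGS, Polynomial.map_zero]
    rw [hevh, h1, Polynomial.map_zero]
  · rw [hevh, hQ0, Polynomial.map_mul, Polynomial.map_pow, Polynomial.map_X, Polynomial.map_C]
    rfl
  · have h1 : ((Polynomial.derivative (P0 j) * P0 k - P0 j * Polynomial.derivative (P0 k)).map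
        (h : A →+* ℂ)) = 0 := by
      rw [Polynomial.map_sub, Polynomial.map_mul, Polynomial.map_mul, ← Polynomial.derivative_map,
        ← Polynomial.derivative_map, hc, sub_self]
    have h2 := congrArg (fun q : Polynomial ℂ => q.coeff n') h1
    simp only [Polynomial.coeff_map, Polynomial.coeff_zero] at h2
    exact h2
  · rw [hevh] at hfin
    have h2 := congrArg (fun q : Polynomial ℂ => q.coeff n) hfin
    simp only [Polynomial.coeff_map, Polynomial.coeff_zero] at h2
    exact h2
  · have h1 : Polynomial.derivative (aeval P0 (g u) : Polynomial A) * aeval P0 (g v) =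
        aeval P0 (g u) * Polynomial.derivative (aeval P0 (g v)) := by
      apply hinj
      rw [Polynomial.map_mul, Polynomial.map_mul, ← Polynomial.derivative_map,
        ← Polynomial.derivative_map, hev, hev]
      exact hW u v
    have h2 := congrArg (Polynomial.map (h : A →+* ℂ)) h1
    rw [Polynomial.map_mul, Polynomial.map_mul, ← Polynomial.derivative_map,
      ← Polynomial.derivative_map] at h2
    rw [hevh, hevh]
    exact h2

/-- specialisation, for an arbitrary embedding of the complex numbers -/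
theorem special_rel' {N m : ℕ} {Q G' : MvPolynomial (Fin (N + 1)) ℂ}
    {S : Set (MvPolynomial (Fin (N + 1)) ℂ)} (g : Fin (m + 1) → MvPolynomial (Fin (N + 1)) ℂ)
    {M : Type} [Field M] (τ : ℂ →+* M)
    {P : Fin (N + 1) → Polynomial M} (hP : ∀ G ∈ S, eval₂ (Polynomial.C.comp τ) P G = 0)
    (hW : ∀ u v, Polynomial.derivative (eval₂ (Polynomial.C.comp τ) P (g u)) *
      eval₂ (Polynomial.C.comp τ) P (g v) = eval₂ (Polynomial.C.comp τ) P (g u) *
        Polynomial.derivative (eval₂ (Polynomial.C.comp τ) P (g v)))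
    (hQ : ∃ (c : M) (k : ℕ), c ≠ 0 ∧
      eval₂ (Polynomial.C.comp τ) P Q = Polynomial.C c * Polynomial.X ^ k)
    (hn : ∃ j k, Polynomial.derivative (P j) * P k ≠ P j * Polynomial.derivative (P k))
    (hG : eval₂ (Polynomial.C.comp τ) P G' ≠ 0) :
    ∃ p : Fin (N + 1) → Polynomial ℂ, (∀ j, (p j).natDegree ≤ (P j).natDegree) ∧
      (∀ G ∈ S, aeval p G = 0) ∧
      (∃ (c : ℂ) (k : ℕ), c ≠ 0 ∧ aeval p Q = Polynomial.C c * Polynomial.X ^ k) ∧
      (∃ j k, Polynomial.derivative (p j) * p k ≠ p j * Polynomial.derivative (p k)) ∧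
      aeval p G' ≠ 0 ∧ ConstOn g p := by
  let _ : Algebra ℂ M := τ.toAlgebra
  exact special_rel (S := S) (Q := Q) (G' := G') (P := P) g hP hW hQ hn hG

/-- maps of a given type: the exponent of `Q(P)` is `κ`, and the coefficient `w` of the Wronskian of
the coordinates `a` and `b` does not vanish -/
theorem exists_Gτ_rel {m : ℕ} (g : Fin (m + 1) → MvPolynomial (Fin (n + 1)) ℂ)
    {I : Ideal (MvPolynomial (Fin (n + 1)) ℂ)} (hI : I.IsPrime)
    {Q : MvPolynomial (Fin (n + 1)) ℂ} (hnr : ¬ FibRuled I Q g) (N κ w : ℕ) (a b : Fin (n + 1)) :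
    ∃ G : MvPolynomial (Fin (n + 1)) ℂ, (∃ m, G.IsHomogeneous m) ∧ G ∉ I ∧
      ∀ P, GmBdd I Q N P → ConstOn g P → (∃ c, c ≠ 0 ∧ aeval P Q = Polynomial.C c * Polynomial.X ^ κ) →
        (Polynomial.derivative (P a) * P b - P a * Polynomial.derivative (P b)).coeff w ≠ 0 →
          eval (fun i => (P i).eval 1) G = 0 := by
  classical
  by_contra hcon
  push Not at hcon
  let R : Type := MvPolynomial (Fin (N + 1) × Fin (n + 1)) ℂ
  let ct : Fin (N + 1) → Fin (n + 1) → R := fun j i => MvPolynomial.X (j, i)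
  let xt : Fin (n + 1) → R := fun i => (pol ct i).eval 1
  let W : R := (Polynomial.derivative (pol ct a) * pol ct b -
    pol ct a * Polynomial.derivative (pol ct b)).coeff w * (aeval (pol ct) Q : Polynomial R).coeff κ
  let J : Ideal R := Ideal.span ({u | ∃ F ∈ I, (∃ m, F.IsHomogeneous m) ∧ ∃ t : ℕ,
    u = (aeval (pol ct) F : Polynomial R).coeff t} ∪
      {u | ∃ t : ℕ, t ≠ κ ∧ u = (aeval (pol ct) Q : Polynomial R).coeff t} ∪
      {u | ∃ (i j : Fin (m + 1)) (t : ℕ), u = (Polynomial.derivative (aeval (pol ct) (g i) :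
        Polynomial R) * aeval (pol ct) (g j) - aeval (pol ct) (g i) *
          Polynomial.derivative (aeval (pol ct) (g j) : Polynomial R)).coeff t})
  have hcur : ∀ (L : Type) [Field L] [Algebra ℂ L] (s : R →ₐ[ℂ] L) (i : Fin (n + 1)),
      Polynomial.mapAlgHom s (pol ct i) = pol (fun j i => s (ct j i)) i := by
    intro L _ _ s i
    unfold pol
    rw [map_sum]
    refine Finset.sum_congr rfl fun j _ => ?_
    simp
  have hFs : ∀ (L : Type) [Field L] [Algebra ℂ L] (s : R →ₐ[ℂ] L)
      (F : MvPolynomial (Fin (n + 1)) ℂ),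
      Polynomial.mapAlgHom s (aeval (pol ct) F) = aeval (pol fun j i => s (ct j i)) F := by
    intro L _ _ s F
    have h1 := comp_aeval_apply (f := pol ct) (Polynomial.mapAlgHom s) F
    rw [h1]
    congr 2
    funext i
    exact hcur L s i
  have hFc : ∀ (L : Type) [Field L] [Algebra ℂ L] (s : R →ₐ[ℂ] L)
      (F : MvPolynomial (Fin (n + 1)) ℂ) (t : ℕ),
      s ((aeval (pol ct) F : Polynomial R).coeff t) =
        (aeval (pol fun j i => s (ct j i)) F : Polynomial L).coeff t := by
    intro L _ _ s F t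
    rw [← hFs L s F, Polynomial.coe_mapAlgHom, Polynomial.coeff_map]
    rfl
  have hGc : ∀ (L : Type) [Field L] [Algebra ℂ L] (s : R →ₐ[ℂ] L) (i j : Fin (m + 1)) (t : ℕ),
      s ((Polynomial.derivative (aeval (pol ct) (g i) : Polynomial R) * aeval (pol ct) (g j) -
        aeval (pol ct) (g i) * Polynomial.derivative (aeval (pol ct) (g j) :
          Polynomial R)).coeff t) =
        (Polynomial.derivative (aeval (pol fun j i => s (ct j i)) (g i)) *
          aeval (pol fun j i => s (ct j i)) (g j) -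
          aeval (pol fun j i => s (ct j i)) (g i) *
          Polynomial.derivative (aeval (pol fun j i => s (ct j i)) (g j)) :
            Polynomial L).coeff t := by
    intro L _ _ s i j t
    rw [← hFs L s (g i), ← hFs L s (g j), Polynomial.coe_mapAlgHom, Polynomial.derivative_map,
      Polynomial.derivative_map, ← Polynomial.map_mul, ← Polynomial.map_mul,
      ← Polynomial.map_sub, Polynomial.coeff_map]
    rfl
  have hxs : ∀ (L : Type) [Field L] [Algebra ℂ L] (s : R →ₐ[ℂ] L)
      (G : MvPolynomial (Fin (n + 1)) ℂ),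
      s (aeval xt G) = aeval (fun i => (pol (fun j i => s (ct j i)) i).eval 1) G := by
    intro L _ _ s G
    have h1 := comp_aeval_apply (f := xt) s G
    rw [h1]
    congr 2
    funext i
    rw [← hcur L s i, Polynomial.coe_mapAlgHom, Polynomial.eval_map, Polynomial.eval₂_at_one]
    rfl
  have hWs : ∀ (L : Type) [Field L] [Algebra ℂ L] (s : R →ₐ[ℂ] L), s W =
      (Polynomial.derivative (pol (fun j i => s (ct j i)) a) * pol (fun j i => s (ct j i)) b -
        pol (fun j i => s (ct j i)) a *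
          Polynomial.derivative (pol (fun j i => s (ct j i)) b)).coeff w *
        (aeval (pol fun j i => s (ct j i)) Q : Polynomial L).coeff κ := by
    intro L _ _ s
    rw [map_mul, hFc L s Q κ]
    congr 1
    rw [← hcur L s a, ← hcur L s b, Polynomial.coe_mapAlgHom, Polynomial.derivative_map,
      Polynomial.derivative_map, ← Polynomial.map_mul, ← Polynomial.map_mul,
      ← Polynomial.map_sub, Polynomial.coeff_map]
    rfl
  have h1I : (1 : MvPolynomial (Fin (n + 1)) ℂ) ∉ I := fun h => hI.ne_top ((Ideal.eq_top_iff_one _).2 h)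
  let M : Submonoid R :=
    { carrier := {u | ∃ (G : MvPolynomial (Fin (n + 1)) ℂ) (t : ℕ), (∃ m, G.IsHomogeneous m) ∧
        G ∉ I ∧ u = aeval xt G * W ^ t}
      one_mem' := ⟨1, 0, ⟨0, MvPolynomial.isHomogeneous_one _ _⟩, h1I, by simp⟩
      mul_mem' := by
        rintro a b ⟨G, t, ⟨e, he⟩, hG, rfl⟩ ⟨G', t', ⟨e', he'⟩, hG', rfl⟩
        refine ⟨G * G', t + t', ⟨e + e', he.mul he'⟩, ?_, ?_⟩
        · intro h
          rcases hI.mem_or_mem h with h | h
          · exact hG h
          · exact hG' h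
        · rw [map_mul, pow_add]
          ring }
  have hdisj : Disjoint (J : Set R) M := by
    rw [Set.disjoint_left]
    rintro u huJ ⟨G, t, hGh, hGI, rfl⟩
    obtain ⟨P, hPb, hPg, ⟨c, hc, hPQ⟩, hPw, hPG⟩ := hcon G hGh hGI
    let s : R →ₐ[ℂ] ℂ := aeval (fun q : Fin (N + 1) × Fin (n + 1) => (P q.2).coeff q.1)
    have hsc : (fun j i => s (ct j i)) = fun (j : Fin (N + 1)) i => (P i).coeff j := by
      funext j i
      exact aeval_X (fun q : Fin (N + 1) × Fin (n + 1) => (P q.2).coeff q.1) (j, i)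
    have hsP : pol (fun j i => s (ct j i)) = P := by
      rw [hsc]
      exact pol_coeff hPb.deg
    have hJ : J ≤ RingHom.ker s.toRingHom := by
      rw [Ideal.span_le]
      rintro _ ((⟨F, hF, hFh, t, rfl⟩ | ⟨t, ht, rfl⟩) | ⟨i, j, t, rfl⟩)
      · change s _ = 0
        rw [hFc ℂ s F t, hsP, hPb.mem F hF hFh, Polynomial.coeff_zero]
      · change s _ = 0
        rw [hFc ℂ s Q t, hsP, hPQ, Polynomial.coeff_C_mul, Polynomial.coeff_X_pow, if_neg ht,
          mul_zero]
      · change s _ = 0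
        rw [hGc ℂ s i j t, hsP, hPg i j, sub_self, Polynomial.coeff_zero]
    have h2 : s (aeval xt G * W ^ t) = 0 := hJ huJ
    rw [map_mul, map_pow, hxs ℂ s G, hWs ℂ s, hsP] at h2
    refine mul_ne_zero ?_ (pow_ne_zero _ (mul_ne_zero hPw ?_)) h2
    · intro h3
      apply hPG
      rw [← MvPolynomial.coe_aeval_eq_eval]
      exact h3
    · rw [hPQ, Polynomial.coeff_C_mul, Polynomial.coeff_X_pow_self, mul_one]
      exact hc
  obtain ⟨𝔭, hP, hJP, hPM⟩ := Ideal.exists_le_prime_disjoint J M hdisj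
  let L : Type := FractionRing (R ⧸ 𝔭)
  let s : R →ₐ[ℂ] L := (IsScalarTower.toAlgHom ℂ (R ⧸ 𝔭) (FractionRing (R ⧸ 𝔭))).comp
    (Ideal.Quotient.mkₐ ℂ 𝔭)
  have hs0 : ∀ a : R, s a = 0 ↔ a ∈ 𝔭 := by
    intro a
    change algebraMap (R ⧸ 𝔭) (FractionRing (R ⧸ 𝔭)) (Ideal.Quotient.mk 𝔭 a) = 0 ↔ _
    rw [FaithfulSMul.algebraMap_eq_zero_iff, Ideal.Quotient.eq_zero_iff_mem]
  have hsW : s W ≠ 0 := by
    intro h0
    rw [hs0] at h0
    exact Set.disjoint_left.1 hPM h0 ⟨1, 1, ⟨0, MvPolynomial.isHomogeneous_one _ _⟩, h1I, by simp⟩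
  rw [hWs L s] at hsW
  apply hnr
  refine ⟨L, inferInstance, inferInstance, pol fun j i => s (ct j i), ?_, ?_, ?_, ?_, ?_⟩
  · intro F hF hFh
    rw [← hFs L s F]
    ext t
    rw [Polynomial.coe_mapAlgHom, Polynomial.coeff_map, Polynomial.coeff_zero]
    exact (hs0 _).2 (hJP (Ideal.subset_span (Or.inl (Or.inl ⟨F, hF, hFh, t, rfl⟩))))
  · refine ⟨(aeval (pol fun j i => s (ct j i)) Q : Polynomial L).coeff κ, κ,
      right_ne_zero_of_mul hsW, ?_⟩
    ext t
    rw [Polynomial.coeff_C_mul, Polynomial.coeff_X_pow]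
    by_cases ht : t = κ
    · rw [if_pos ht, mul_one, ht]
    · rw [if_neg ht, mul_zero, ← hFc L s Q t]
      exact (hs0 _).2 (hJP (Ideal.subset_span (Or.inl (Or.inr ⟨t, ht, rfl⟩))))
  · intro G hGh hGI h0
    have h1 : s (aeval xt G) = 0 := by
      rw [hxs L s G]
      have h2 := comp_aeval_apply (f := pol fun j i => s (ct j i))
        ((Polynomial.aeval (1 : L) : Polynomial L →ₐ[L] L).restrictScalars ℂ) G
      rw [h0, map_zero] at h2
      rw [h2]
      congr 2
    rw [hs0] at h1
    exact Set.disjoint_left.1 hPM h1 ⟨G, 0, hGh, hGI, by simp⟩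
  · refine ⟨a, b, fun h0 => left_ne_zero_of_mul hsW ?_⟩
    rw [h0, sub_self, Polynomial.coeff_zero]
  · intro i j
    rw [← sub_eq_zero]
    ext t
    rw [← hGc L s i j t, Polynomial.coeff_zero]
    exact (hs0 _).2 (hJP (Ideal.subset_span (Or.inr ⟨i, j, t, rfl⟩)))

/-- **Too many curves of bounded degree cover the variety.** -/
theorem thin_rel {m : ℕ} (g : Fin (m + 1) → MvPolynomial (Fin (n + 1)) ℂ)
    {I : Ideal (MvPolynomial (Fin (n + 1)) ℂ)} (hI : I.IsPrime)
    {Q : MvPolynomial (Fin (n + 1)) ℂ} {d0 : ℕ} (hQ : Q.IsHomogeneous d0) (hnr : ¬ FibRuled I Q g) :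
    FibThin I Q g := by
  classical
  intro N
  choose G hG1 hG2 hG3 using fun p : (Fin (d0 * N + 1) × Fin (2 * N + 1)) ×
    (Fin (n + 1) × Fin (n + 1)) => exists_Gτ_rel g hI hnr N p.1.1 p.1.2 p.2.1 p.2.2
  choose mm hm using hG1
  refine ⟨∏ p, G p, ⟨_, IsHomogeneous.prod _ _ mm fun p _ => hm p⟩, fun h1 => ?_, ?_⟩
  · obtain ⟨p, -, hp⟩ := (hI.prod_mem_iff).1 h1
    exact hG2 p hp
  -- the value at `1`
  have key : ∀ P, GmBdd I Q N P → ConstOn g P → eval (fun i => (P i).eval 1) (∏ p, G p) = 0 := by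
    intro P hP hPg
    obtain ⟨c, κ, hc, hκ⟩ := hP.off
    obtain ⟨a, b, hab⟩ := wr_of_nc hP.nc
    have hdQ : (aeval P Q : Polynomial ℂ).natDegree ≤ d0 * N := by
      rw [aeval_def, eval₂_eq]
      refine Polynomial.natDegree_sum_le_of_forall_le _ _ fun u hu => ?_
      refine Polynomial.natDegree_mul_le.trans ?_
      have h1 : (algebraMap ℂ (Polynomial ℂ) (coeff u Q)).natDegree = 0 :=
        Polynomial.natDegree_C _
      rw [h1, zero_add]
      refine (Polynomial.natDegree_prod_le _ _).trans ?_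
      have h2 := hQ (mem_support_iff.1 hu)
      have h3 : ∑ i ∈ u.support, u i = d0 := by
        rw [← h2, Finsupp.weight_apply, Finsupp.sum]
        simp
      calc ∑ i ∈ u.support, (P i ^ u i).natDegree ≤ ∑ i ∈ u.support, u i * N :=
            Finset.sum_le_sum fun i _ => Polynomial.natDegree_pow_le.trans
              (Nat.mul_le_mul_left _ (hP.deg i))
        _ = d0 * N := by rw [← Finset.sum_mul, h3]
    have hκ2 : κ ≤ d0 * N := by
      rw [hκ, Polynomial.natDegree_C_mul_X_pow _ _ hc] at hdQ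
      exact hdQ
    have hw : ∃ w, (Polynomial.derivative (P a) * P b -
        P a * Polynomial.derivative (P b)).coeff w ≠ 0 := by
      by_contra hcon
      push Not at hcon
      apply hab
      rw [← sub_eq_zero]
      exact Polynomial.ext fun w => by rw [hcon w, Polynomial.coeff_zero]
    obtain ⟨w, hw⟩ := hw
    have hw2 : w ≤ 2 * N := by
      by_contra hlt
      apply hw
      apply Polynomial.coeff_eq_zero_of_natDegree_lt
      refine lt_of_le_of_lt ?_ (not_le.1 hlt)
      have h1 := hP.deg a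
      have h2 := hP.deg b
      refine (Polynomial.natDegree_sub_le _ _).trans (max_le ?_ ?_)
      · refine Polynomial.natDegree_mul_le.trans ?_
        have := Polynomial.natDegree_derivative_le (P a)
        omega
      · refine Polynomial.natDegree_mul_le.trans ?_
        have := Polynomial.natDegree_derivative_le (P b)
        omega
    rw [map_prod]
    refine Finset.prod_eq_zero (Finset.mem_univ ((⟨κ, by omega⟩, ⟨w, by omega⟩), (a, b))) ?_
    exact hG3 ((⟨κ, by omega⟩, ⟨w, by omega⟩), (a, b)) P hP hPg ⟨c, hc, hκ⟩ hw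
  intro P hP hPg t
  have h1 : (aeval P (∏ p, G p) : Polynomial ℂ) = 0 := by
    by_contra h0
    have h2 : (aeval P (∏ p, G p) : Polynomial ℂ) * Polynomial.X ≠ 0 :=
      mul_ne_zero h0 Polynomial.X_ne_zero
    obtain ⟨z, hz⟩ := poly_ne h2
    rw [Polynomial.eval_mul, Polynomial.eval_X] at hz
    have hz0 : z ≠ 0 := right_ne_zero_of_mul hz
    apply left_ne_zero_of_mul hz
    rw [eval_aeval]
    have h3 := key _ (hP.scale hz0) (hPg.scale z)
    simp only [Polynomial.eval_comp, Polynomial.eval_mul, Polynomial.eval_C, Polynomial.eval_X,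
      mul_one] at h3
    exact h3
  rw [← eval_aeval, h1, Polynomial.eval_zero]

end Pool.Agent.V1153.FB
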